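import Pool.Agent.V8H13.LF.DataT3222

set_option autoImplicit false

namespace Pool.Agent.V8H13.LF.T3222

open Pool.Agent.V8H13.LF

theorem c1_0 : allb (okState cs 1 (tblOf l2)) l1_0 = true := by decide +kernel

theorem c1 : OkL cs 1 l1 l2 :=
  fa_cons c1_0 fa_nil

theorem c2_0 : allb (okState cs 2 (tblOf l3)) l2_0 = true := by decide +kernel

theorem c2 : OkL cs 2 l2 l3 :=
  fa_cons c2_0 fa_nil

theorem c3_0 : allb (okState cs 3 (tblOf l4)) l3_0 = true := by decide +kernel

theorem c3 : OkL cs 3 l3 l4 :=
  fa_cons c3_0 fa_nil

theorem c4_0 : allb (okState cs 4 (tblOf l5)) l4_0 = true := by decide +kernel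

theorem c4 : OkL cs 4 l4 l5 :=
  fa_cons c4_0 fa_nil

theorem c5_0 : allb (okState cs 5 (tblOf l6)) l5_0 = true := by decide +kernel

theorem c5 : OkL cs 5 l5 l6 :=
  fa_cons c5_0 fa_nil

theorem c6_0 : allb (okState cs 6 (tblOf l7)) l6_0 = true := by decide +kernel

theorem c6 : OkL cs 6 l6 l7 :=
  fa_cons c6_0 fa_nil

theorem c7_0 : allb (okState cs 7 (tblOf l8)) l7_0 = true := by decide +kernel

theorem c7 : OkL cs 7 l7 l8 :=
  fa_cons c7_0 fa_nil

theorem c8_0 : allb (okState cs 8 (tblOf l9)) l8_0 = true := by decide +kernel

theorem c8 : OkL cs 8 l8 l9 :=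
  fa_cons c8_0 fa_nil

theorem c9_0 : allb (okState cs 9 (tblOf l10)) l9_0 = true := by decide +kernel

theorem c9 : OkL cs 9 l9 l10 :=
  fa_cons c9_0 fa_nil

theorem c10_0 : allb (okState cs 10 (tblOf l11)) l10_0 = true := by decide +kernel

theorem c10 : OkL cs 10 l10 l11 :=
  fa_cons c10_0 fa_nil

theorem c11_0 : allb (okState cs 11 (tblOf l12)) l11_0 = true := by decide +kernel

theorem c11_1 : allb (okState cs 11 (tblOf l12)) l11_1 = true := by decide +kernel

theorem c11_2 : allb (okState cs 11 (tblOf l12)) l11_2 = true := by decide +kernel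

theorem c11 : OkL cs 11 l11 l12 :=
  fa_cons c11_0 (fa_cons c11_1 (fa_cons c11_2 fa_nil))

theorem c12_0 : allb (okState cs 12 (tblOf l13)) l12_0 = true := by decide +kernel

theorem c12_1 : allb (okState cs 12 (tblOf l13)) l12_1 = true := by decide +kernel

theorem c12_2 : allb (okState cs 12 (tblOf l13)) l12_2 = true := by decide +kernel

theorem c12_3 : allb (okState cs 12 (tblOf l13)) l12_3 = true := by decide +kernel

theorem c12_4 : allb (okState cs 12 (tblOf l13)) l12_4 = true := by decide +kernel

theorem c12_5 : allb (okState cs 12 (tblOf l13)) l12_5 = true := by decide +kernel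

theorem c12_6 : allb (okState cs 12 (tblOf l13)) l12_6 = true := by decide +kernel

theorem c12_7 : allb (okState cs 12 (tblOf l13)) l12_7 = true := by decide +kernel

theorem c12 : OkL cs 12 l12 l13 :=
  fa_cons c12_0 (fa_cons c12_1 (fa_cons c12_2 (fa_cons c12_3 (fa_cons c12_4 (fa_cons c12_5 (fa_cons c12_6 (fa_cons c12_7 fa_nil)))))))

theorem c13_0 : allb (okState cs 13 (tblOf l14)) l13_0 = true := by decide +kernel

theorem c13_1 : allb (okState cs 13 (tblOf l14)) l13_1 = true := by decide +kernel

theorem c13_2 : allb (okState cs 13 (tblOf l14)) l13_2 = true := by decide +kernel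

theorem c13_3 : allb (okState cs 13 (tblOf l14)) l13_3 = true := by decide +kernel

theorem c13_4 : allb (okState cs 13 (tblOf l14)) l13_4 = true := by decide +kernel

theorem c13_5 : allb (okState cs 13 (tblOf l14)) l13_5 = true := by decide +kernel

theorem c13_6 : allb (okState cs 13 (tblOf l14)) l13_6 = true := by decide +kernel

theorem c13_7 : allb (okState cs 13 (tblOf l14)) l13_7 = true := by decide +kernel

theorem c13_8 : allb (okState cs 13 (tblOf l14)) l13_8 = true := by decide +kernel

theorem c13_9 : allb (okState cs 13 (tblOf l14)) l13_9 = true := by decide +kernel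

theorem c13_10 : allb (okState cs 13 (tblOf l14)) l13_10 = true := by decide +kernel

theorem c13_11 : allb (okState cs 13 (tblOf l14)) l13_11 = true := by decide +kernel

theorem c13_12 : allb (okState cs 13 (tblOf l14)) l13_12 = true := by decide +kernel

theorem c13_13 : allb (okState cs 13 (tblOf l14)) l13_13 = true := by decide +kernel

theorem c13_14 : allb (okState cs 13 (tblOf l14)) l13_14 = true := by decide +kernel

theorem c13_15 : allb (okState cs 13 (tblOf l14)) l13_15 = true := by decide +kernel

theorem c13_16 : allb (okState cs 13 (tblOf l14)) l13_16 = true := by decide +kernel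

theorem c13_17 : allb (okState cs 13 (tblOf l14)) l13_17 = true := by decide +kernel

theorem c13_18 : allb (okState cs 13 (tblOf l14)) l13_18 = true := by decide +kernel

theorem c13_19 : allb (okState cs 13 (tblOf l14)) l13_19 = true := by decide +kernel

theorem c13_20 : allb (okState cs 13 (tblOf l14)) l13_20 = true := by decide +kernel

theorem c13_21 : allb (okState cs 13 (tblOf l14)) l13_21 = true := by decide +kernel

theorem c13_22 : allb (okState cs 13 (tblOf l14)) l13_22 = true := by decide +kernel

theorem c13_23 : allb (okState cs 13 (tblOf l14)) l13_23 = true := by decide +kernel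

theorem c13_24 : allb (okState cs 13 (tblOf l14)) l13_24 = true := by decide +kernel

theorem c13_25 : allb (okState cs 13 (tblOf l14)) l13_25 = true := by decide +kernel

theorem c13_26 : allb (okState cs 13 (tblOf l14)) l13_26 = true := by decide +kernel

theorem c13_27 : allb (okState cs 13 (tblOf l14)) l13_27 = true := by decide +kernel

theorem c13_28 : allb (okState cs 13 (tblOf l14)) l13_28 = true := by decide +kernel

theorem c13_29 : allb (okState cs 13 (tblOf l14)) l13_29 = true := by decide +kernel

theorem c13_30 : allb (okState cs 13 (tblOf l14)) l13_30 = true := by decide +kernel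

theorem c13 : OkL cs 13 l13 l14 :=
  fa_cons c13_0 (fa_cons c13_1 (fa_cons c13_2 (fa_cons c13_3 (fa_cons c13_4 (fa_cons c13_5 (fa_cons c13_6 (fa_cons c13_7 (fa_cons c13_8 (fa_cons c13_9 (fa_cons c13_10 (fa_cons c13_11 (fa_cons c13_12 (fa_cons c13_13 (fa_cons c13_14 (fa_cons c13_15 (fa_cons c13_16 (fa_cons c13_17 (fa_cons c13_18 (fa_cons c13_19 (fa_cons c13_20 (fa_cons c13_21 (fa_cons c13_22 (fa_cons c13_23 (fa_cons c13_24 (fa_cons c13_25 (fa_cons c13_26 (fa_cons c13_27 (fa_cons c13_28 (fa_cons c13_29 (fa_cons c13_30 fa_nil))))))))))))))))))))))))))))))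

theorem c14_0 : allb (okState cs 14 (tblOf l15)) l14_0 = true := by decide +kernel

theorem c14_1 : allb (okState cs 14 (tblOf l15)) l14_1 = true := by decide +kernel

theorem c14_2 : allb (okState cs 14 (tblOf l15)) l14_2 = true := by decide +kernel

theorem c14_3 : allb (okState cs 14 (tblOf l15)) l14_3 = true := by decide +kernel

theorem c14_4 : allb (okState cs 14 (tblOf l15)) l14_4 = true := by decide +kernel

theorem c14_5 : allb (okState cs 14 (tblOf l15)) l14_5 = true := by decide +kernel

theorem c14_6 : allb (okState cs 14 (tblOf l15)) l14_6 = true := by decide +kernel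

theorem c14_7 : allb (okState cs 14 (tblOf l15)) l14_7 = true := by decide +kernel

theorem c14_8 : allb (okState cs 14 (tblOf l15)) l14_8 = true := by decide +kernel

theorem c14_9 : allb (okState cs 14 (tblOf l15)) l14_9 = true := by decide +kernel

theorem c14_10 : allb (okState cs 14 (tblOf l15)) l14_10 = true := by decide +kernel

theorem c14_11 : allb (okState cs 14 (tblOf l15)) l14_11 = true := by decide +kernel

theorem c14_12 : allb (okState cs 14 (tblOf l15)) l14_12 = true := by decide +kernel

theorem c14_13 : allb (okState cs 14 (tblOf l15)) l14_13 = true := by decide +kernel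

theorem c14_14 : allb (okState cs 14 (tblOf l15)) l14_14 = true := by decide +kernel

theorem c14_15 : allb (okState cs 14 (tblOf l15)) l14_15 = true := by decide +kernel

theorem c14_16 : allb (okState cs 14 (tblOf l15)) l14_16 = true := by decide +kernel

theorem c14_17 : allb (okState cs 14 (tblOf l15)) l14_17 = true := by decide +kernel

theorem c14_18 : allb (okState cs 14 (tblOf l15)) l14_18 = true := by decide +kernel

theorem c14_19 : allb (okState cs 14 (tblOf l15)) l14_19 = true := by decide +kernel

theorem c14_20 : allb (okState cs 14 (tblOf l15)) l14_20 = true := by decide +kernel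

theorem c14_21 : allb (okState cs 14 (tblOf l15)) l14_21 = true := by decide +kernel

theorem c14_22 : allb (okState cs 14 (tblOf l15)) l14_22 = true := by decide +kernel

theorem c14_23 : allb (okState cs 14 (tblOf l15)) l14_23 = true := by decide +kernel

theorem c14_24 : allb (okState cs 14 (tblOf l15)) l14_24 = true := by decide +kernel

theorem c14_25 : allb (okState cs 14 (tblOf l15)) l14_25 = true := by decide +kernel

theorem c14_26 : allb (okState cs 14 (tblOf l15)) l14_26 = true := by decide +kernel

theorem c14_27 : allb (okState cs 14 (tblOf l15)) l14_27 = true := by decide +kernel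

theorem c14_28 : allb (okState cs 14 (tblOf l15)) l14_28 = true := by decide +kernel

theorem c14_29 : allb (okState cs 14 (tblOf l15)) l14_29 = true := by decide +kernel

theorem c14_30 : allb (okState cs 14 (tblOf l15)) l14_30 = true := by decide +kernel

theorem c14_31 : allb (okState cs 14 (tblOf l15)) l14_31 = true := by decide +kernel

theorem c14_32 : allb (okState cs 14 (tblOf l15)) l14_32 = true := by decide +kernel

theorem c14_33 : allb (okState cs 14 (tblOf l15)) l14_33 = true := by decide +kernel

theorem c14_34 : allb (okState cs 14 (tblOf l15)) l14_34 = true := by decide +kernel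

theorem c14_35 : allb (okState cs 14 (tblOf l15)) l14_35 = true := by decide +kernel

theorem c14_36 : allb (okState cs 14 (tblOf l15)) l14_36 = true := by decide +kernel

theorem c14_37 : allb (okState cs 14 (tblOf l15)) l14_37 = true := by decide +kernel

theorem c14_38 : allb (okState cs 14 (tblOf l15)) l14_38 = true := by decide +kernel

theorem c14_39 : allb (okState cs 14 (tblOf l15)) l14_39 = true := by decide +kernel

theorem c14_40 : allb (okState cs 14 (tblOf l15)) l14_40 = true := by decide +kernel

theorem c14_41 : allb (okState cs 14 (tblOf l15)) l14_41 = true := by decide +kernel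

theorem c14_42 : allb (okState cs 14 (tblOf l15)) l14_42 = true := by decide +kernel

theorem c14_43 : allb (okState cs 14 (tblOf l15)) l14_43 = true := by decide +kernel

theorem c14_44 : allb (okState cs 14 (tblOf l15)) l14_44 = true := by decide +kernel

theorem c14_45 : allb (okState cs 14 (tblOf l15)) l14_45 = true := by decide +kernel

theorem c14_46 : allb (okState cs 14 (tblOf l15)) l14_46 = true := by decide +kernel

theorem c14_47 : allb (okState cs 14 (tblOf l15)) l14_47 = true := by decide +kernel

theorem c14_48 : allb (okState cs 14 (tblOf l15)) l14_48 = true := by decide +kernel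

theorem c14_49 : allb (okState cs 14 (tblOf l15)) l14_49 = true := by decide +kernel

theorem c14_50 : allb (okState cs 14 (tblOf l15)) l14_50 = true := by decide +kernel

theorem c14_51 : allb (okState cs 14 (tblOf l15)) l14_51 = true := by decide +kernel

theorem c14_52 : allb (okState cs 14 (tblOf l15)) l14_52 = true := by decide +kernel

theorem c14_53 : allb (okState cs 14 (tblOf l15)) l14_53 = true := by decide +kernel

theorem c14_54 : allb (okState cs 14 (tblOf l15)) l14_54 = true := by decide +kernel

theorem c14_55 : allb (okState cs 14 (tblOf l15)) l14_55 = true := by decide +kernel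

theorem c14_56 : allb (okState cs 14 (tblOf l15)) l14_56 = true := by decide +kernel

theorem c14_57 : allb (okState cs 14 (tblOf l15)) l14_57 = true := by decide +kernel

theorem c14_58 : allb (okState cs 14 (tblOf l15)) l14_58 = true := by decide +kernel

theorem c14_59 : allb (okState cs 14 (tblOf l15)) l14_59 = true := by decide +kernel

theorem c14_60 : allb (okState cs 14 (tblOf l15)) l14_60 = true := by decide +kernel

theorem c14_61 : allb (okState cs 14 (tblOf l15)) l14_61 = true := by decide +kernel

theorem c14_62 : allb (okState cs 14 (tblOf l15)) l14_62 = true := by decide +kernel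

theorem c14_63 : allb (okState cs 14 (tblOf l15)) l14_63 = true := by decide +kernel

theorem c14_64 : allb (okState cs 14 (tblOf l15)) l14_64 = true := by decide +kernel

theorem c14_65 : allb (okState cs 14 (tblOf l15)) l14_65 = true := by decide +kernel

theorem c14_66 : allb (okState cs 14 (tblOf l15)) l14_66 = true := by decide +kernel

theorem c14_67 : allb (okState cs 14 (tblOf l15)) l14_67 = true := by decide +kernel

theorem c14_68 : allb (okState cs 14 (tblOf l15)) l14_68 = true := by decide +kernel

theorem c14_69 : allb (okState cs 14 (tblOf l15)) l14_69 = true := by decide +kernel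

theorem c14 : OkL cs 14 l14 l15 :=
  fa_cons c14_0 (fa_cons c14_1 (fa_cons c14_2 (fa_cons c14_3 (fa_cons c14_4 (fa_cons c14_5 (fa_cons c14_6 (fa_cons c14_7 (fa_cons c14_8 (fa_cons c14_9 (fa_cons c14_10 (fa_cons c14_11 (fa_cons c14_12 (fa_cons c14_13 (fa_cons c14_14 (fa_cons c14_15 (fa_cons c14_16 (fa_cons c14_17 (fa_cons c14_18 (fa_cons c14_19 (fa_cons c14_20 (fa_cons c14_21 (fa_cons c14_22 (fa_cons c14_23 (fa_cons c14_24 (fa_cons c14_25 (fa_cons c14_26 (fa_cons c14_27 (fa_cons c14_28 (fa_cons c14_29 (fa_cons c14_30 (fa_cons c14_31 (fa_cons c14_32 (fa_cons c14_33 (fa_cons c14_34 (fa_cons c14_35 (fa_cons c14_36 (fa_cons c14_37 (fa_cons c14_38 (fa_cons c14_39 (fa_cons c14_40 (fa_cons c14_41 (fa_cons c14_42 (fa_cons c14_43 (fa_cons c14_44 (fa_cons c14_45 (fa_cons c14_46 (fa_cons c14_47 (fa_cons c14_48 (fa_cons c14_49 (fa_cons c14_50 (fa_cons c14_51 (fa_cons c14_52 (fa_cons c14_53 (fa_cons c14_54 (fa_cons c14_55 (fa_cons c14_56 (fa_cons c14_57 (fa_cons c14_58 (fa_cons c14_59 (fa_cons c14_60 (fa_cons c14_61 (fa_cons c14_62 (fa_cons c14_63 (fa_cons c14_64 (fa_cons c14_65 (fa_cons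 c14_66 (fa_cons c14_67 (fa_cons c14_68 (fa_cons c14_69 fa_nil)))))))))))))))))))))))))))))))))))))))))))))))))))))))))))))))))))))

theorem c15_0 : allb (okState cs 15 (tblOf l16)) l15_0 = true := by decide +kernel

theorem c15_1 : allb (okState cs 15 (tblOf l16)) l15_1 = true := by decide +kernel

theorem c15_2 : allb (okState cs 15 (tblOf l16)) l15_2 = true := by decide +kernel

theorem c15_3 : allb (okState cs 15 (tblOf l16)) l15_3 = true := by decide +kernel

theorem c15_4 : allb (okState cs 15 (tblOf l16)) l15_4 = true := by decide +kernel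

theorem c15_5 : allb (okState cs 15 (tblOf l16)) l15_5 = true := by decide +kernel

theorem c15_6 : allb (okState cs 15 (tblOf l16)) l15_6 = true := by decide +kernel

theorem c15_7 : allb (okState cs 15 (tblOf l16)) l15_7 = true := by decide +kernel

theorem c15_8 : allb (okState cs 15 (tblOf l16)) l15_8 = true := by decide +kernel

theorem c15_9 : allb (okState cs 15 (tblOf l16)) l15_9 = true := by decide +kernel

theorem c15_10 : allb (okState cs 15 (tblOf l16)) l15_10 = true := by decide +kernel

theorem c15_11 : allb (okState cs 15 (tblOf l16)) l15_11 = true := by decide +kernel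

theorem c15_12 : allb (okState cs 15 (tblOf l16)) l15_12 = true := by decide +kernel

theorem c15_13 : allb (okState cs 15 (tblOf l16)) l15_13 = true := by decide +kernel

theorem c15_14 : allb (okState cs 15 (tblOf l16)) l15_14 = true := by decide +kernel

theorem c15_15 : allb (okState cs 15 (tblOf l16)) l15_15 = true := by decide +kernel

theorem c15_16 : allb (okState cs 15 (tblOf l16)) l15_16 = true := by decide +kernel

theorem c15_17 : allb (okState cs 15 (tblOf l16)) l15_17 = true := by decide +kernel

theorem c15_18 : allb (okState cs 15 (tblOf l16)) l15_18 = true := by decide +kernel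

theorem c15_19 : allb (okState cs 15 (tblOf l16)) l15_19 = true := by decide +kernel

theorem c15_20 : allb (okState cs 15 (tblOf l16)) l15_20 = true := by decide +kernel

theorem c15_21 : allb (okState cs 15 (tblOf l16)) l15_21 = true := by decide +kernel

theorem c15_22 : allb (okState cs 15 (tblOf l16)) l15_22 = true := by decide +kernel

theorem c15_23 : allb (okState cs 15 (tblOf l16)) l15_23 = true := by decide +kernel

theorem c15_24 : allb (okState cs 15 (tblOf l16)) l15_24 = true := by decide +kernel

theorem c15_25 : allb (okState cs 15 (tblOf l16)) l15_25 = true := by decide +kernel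

theorem c15_26 : allb (okState cs 15 (tblOf l16)) l15_26 = true := by decide +kernel

theorem c15_27 : allb (okState cs 15 (tblOf l16)) l15_27 = true := by decide +kernel

theorem c15_28 : allb (okState cs 15 (tblOf l16)) l15_28 = true := by decide +kernel

theorem c15_29 : allb (okState cs 15 (tblOf l16)) l15_29 = true := by decide +kernel

theorem c15_30 : allb (okState cs 15 (tblOf l16)) l15_30 = true := by decide +kernel

theorem c15_31 : allb (okState cs 15 (tblOf l16)) l15_31 = true := by decide +kernel

theorem c15_32 : allb (okState cs 15 (tblOf l16)) l15_32 = true := by decide +kernel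

theorem c15_33 : allb (okState cs 15 (tblOf l16)) l15_33 = true := by decide +kernel

theorem c15_34 : allb (okState cs 15 (tblOf l16)) l15_34 = true := by decide +kernel

theorem c15_35 : allb (okState cs 15 (tblOf l16)) l15_35 = true := by decide +kernel

theorem c15_36 : allb (okState cs 15 (tblOf l16)) l15_36 = true := by decide +kernel

theorem c15_37 : allb (okState cs 15 (tblOf l16)) l15_37 = true := by decide +kernel

theorem c15_38 : allb (okState cs 15 (tblOf l16)) l15_38 = true := by decide +kernel

theorem c15_39 : allb (okState cs 15 (tblOf l16)) l15_39 = true := by decide +kernel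

theorem c15_40 : allb (okState cs 15 (tblOf l16)) l15_40 = true := by decide +kernel

theorem c15_41 : allb (okState cs 15 (tblOf l16)) l15_41 = true := by decide +kernel

theorem c15_42 : allb (okState cs 15 (tblOf l16)) l15_42 = true := by decide +kernel

theorem c15_43 : allb (okState cs 15 (tblOf l16)) l15_43 = true := by decide +kernel

theorem c15_44 : allb (okState cs 15 (tblOf l16)) l15_44 = true := by decide +kernel

theorem c15_45 : allb (okState cs 15 (tblOf l16)) l15_45 = true := by decide +kernel

theorem c15_46 : allb (okState cs 15 (tblOf l16)) l15_46 = true := by decide +kernel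

theorem c15_47 : allb (okState cs 15 (tblOf l16)) l15_47 = true := by decide +kernel

theorem c15_48 : allb (okState cs 15 (tblOf l16)) l15_48 = true := by decide +kernel

theorem c15_49 : allb (okState cs 15 (tblOf l16)) l15_49 = true := by decide +kernel

theorem c15_50 : allb (okState cs 15 (tblOf l16)) l15_50 = true := by decide +kernel

theorem c15_51 : allb (okState cs 15 (tblOf l16)) l15_51 = true := by decide +kernel

theorem c15_52 : allb (okState cs 15 (tblOf l16)) l15_52 = true := by decide +kernel

theorem c15_53 : allb (okState cs 15 (tblOf l16)) l15_53 = true := by decide +kernel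

theorem c15_54 : allb (okState cs 15 (tblOf l16)) l15_54 = true := by decide +kernel

theorem c15 : OkL cs 15 l15 l16 :=
  fa_cons c15_0 (fa_cons c15_1 (fa_cons c15_2 (fa_cons c15_3 (fa_cons c15_4 (fa_cons c15_5 (fa_cons c15_6 (fa_cons c15_7 (fa_cons c15_8 (fa_cons c15_9 (fa_cons c15_10 (fa_cons c15_11 (fa_cons c15_12 (fa_cons c15_13 (fa_cons c15_14 (fa_cons c15_15 (fa_cons c15_16 (fa_cons c15_17 (fa_cons c15_18 (fa_cons c15_19 (fa_cons c15_20 (fa_cons c15_21 (fa_cons c15_22 (fa_cons c15_23 (fa_cons c15_24 (fa_cons c15_25 (fa_cons c15_26 (fa_cons c15_27 (fa_cons c15_28 (fa_cons c15_29 (fa_cons c15_30 (fa_cons c15_31 (fa_cons c15_32 (fa_cons c15_33 (fa_cons c15_34 (fa_cons c15_35 (fa_cons c15_36 (fa_cons c15_37 (fa_cons c15_38 (fa_cons c15_39 (fa_cons c15_40 (fa_cons c15_41 (fa_cons c15_42 (fa_cons c15_43 (fa_cons c15_44 (fa_cons c15_45 (fa_cons c15_46 (fa_cons c15_47 (fa_cons c15_48 (fa_cons c15_49 (fa_cons c15_50 (fa_cons c15_51 (fa_cons c15_52 (fa_cons c15_53 (fa_cons c15_54 fa_nil))))))))))))))))))))))))))))))))))))))))))))))))))))))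

theorem c16_0 : allb (okState cs 16 (tblOf l17)) l16_0 = true := by decide +kernel

theorem c16_1 : allb (okState cs 16 (tblOf l17)) l16_1 = true := by decide +kernel

theorem c16_2 : allb (okState cs 16 (tblOf l17)) l16_2 = true := by decide +kernel

theorem c16_3 : allb (okState cs 16 (tblOf l17)) l16_3 = true := by decide +kernel

theorem c16_4 : allb (okState cs 16 (tblOf l17)) l16_4 = true := by decide +kernel

theorem c16_5 : allb (okState cs 16 (tblOf l17)) l16_5 = true := by decide +kernel

theorem c16_6 : allb (okState cs 16 (tblOf l17)) l16_6 = true := by decide +kernel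

theorem c16_7 : allb (okState cs 16 (tblOf l17)) l16_7 = true := by decide +kernel

theorem c16_8 : allb (okState cs 16 (tblOf l17)) l16_8 = true := by decide +kernel

theorem c16_9 : allb (okState cs 16 (tblOf l17)) l16_9 = true := by decide +kernel

theorem c16_10 : allb (okState cs 16 (tblOf l17)) l16_10 = true := by decide +kernel

theorem c16 : OkL cs 16 l16 l17 :=
  fa_cons c16_0 (fa_cons c16_1 (fa_cons c16_2 (fa_cons c16_3 (fa_cons c16_4 (fa_cons c16_5 (fa_cons c16_6 (fa_cons c16_7 (fa_cons c16_8 (fa_cons c16_9 (fa_cons c16_10 fa_nil))))))))))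

theorem c17_0 : allb (okState cs 17 (tblOf l18)) l17_0 = true := by decide +kernel

theorem c17 : OkL cs 17 l17 l18 :=
  fa_cons c17_0 fa_nil

end Pool.Agent.V8H13.LF.T3222
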