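import Pool.Agent.V8H13.LF.Sound

set_option autoImplicit false
set_option linter.unusedVariables false
set_option linter.unusedSectionVars false

/-!
# Correctness of the checker: states and levels
-/

namespace Pool.Agent.V8H13.LF

open Pool.Agent.R140.PK (row tb bit cnt extend row_eq row_bit tb_eq bit_bit lor_bit land_bit shl_bit
  cnt_eq Emb)

section
variable {V : Type} {R : V → V → Prop} {cs : List Bool}

theorem run_sound [Finite V] (hR : HypF R cs) {m A : Nat} {φ : Nat → V} (he : Emb R m A φ)
    (hm : m < 31) {w : V} (hw : ∀ i, i < m → φ i ≠ w) (hwn : ∃ i, i < m ∧ R w (φ i)) {T : Nat}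
    (hT : ∀ i, T.testBit i = true ↔ i < m ∧ R w (φ i)) {tbl : Nat → Nat}
    (htbl : ∀ k, tbl k = 0 ∨ (OK R (m + 1) (tbl k) ∧ WF (m + 1) (tbl k))) {pats : List Nat}
    (hp : allb (okPat A m cs) pats = true) : ∀ (ord : List Nat) (U N s : Nat),
    (∀ i, U.testBit i = true → N.testBit i = false) →
    (∀ i, U.testBit i = false → T.testBit i = N.testBit i) →
    run (leaf tbl A m pats) A pats ord U N s ≠ 0 → False := by
  have hwn' : ∃ b, R w b := ⟨_, hwn.choose_spec.2⟩
  have hcl : ∀ i j, T.testBit i = true → (ball A i).testBit j = true → j ≠ i →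
      T.testBit j = false := by
    intro i j h1 h2 h3
    rw [← Bool.not_eq_true]
    intro h4
    obtain ⟨a1, a2⟩ := (hT i).1 h1
    obtain ⟨b1, b2⟩ := (hT j).1 h4
    rcases ball_of h2 with h5 | h5 | ⟨l, h5, h6⟩
    · exact h3 h5
    · rw [row_bit, Bool.and_eq_true] at h5
      exact hR.tri w (φ i) (φ j) a2 ((he.adj i j a1 b1).2 h5.2) (hR.symm _ _ b2)
    · rw [row_bit, Bool.and_eq_true, decide_eq_true_eq] at h5 h6
      have hl : l < m := by
        by_contra hl
        rw [he.out i l (Or.inr (by omega)) h5.1] at h5
        exact absurd h5.2 (by simp)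
      exact hR.four w (φ i) (φ l) (φ j) (fun h => hw l hl h.symm)
        (fun h => h3 (he.inj j i b1 a1 h.symm)) a2 ((he.adj i l a1 hl).2 h5.2)
        ((he.adj l j hl b1).2 h6.2) (hR.symm _ _ b2)
  have hpat : ∀ k, getD 0 pats k = 0 ∨ okPat A m cs (getD 0 pats k) = true := by
    intro k
    rcases getD_mem 0 pats k with h | h
    · exact Or.inl h
    · exact Or.inr (allb_mem hp _ h)
  intro ord
  induction ord with
  | nil =>
    intro U N s h1 h2 h
    have h' : (bif Nat.beq U 0 then
        bif Nat.blt (Nat.mod s 64) 60 then
          usePat (getD 0 pats (Nat.pred (Nat.mod s 64))) U N s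
        else leaf tbl A m pats N s
      else 0) ≠ 0 := h
    cases h3 : Nat.beq U 0
    · rw [h3] at h'; simp at h'
    rw [h3] at h'
    simp only [cond_true] at h'
    rw [beq_iff] at h3
    cases h4 : Nat.blt (Nat.mod s 64) 60
    · rw [h4] at h'
      simp only [cond_false] at h'
      have h5 : N = T := by
        refine Nat.eq_of_testBit_eq fun i => ?_
        exact (h2 i (by rw [h3, Nat.zero_testBit])).symm
      rw [h5] at h'
      exact leaf_sound hR he hm hw hwn hT htbl h'
    · rw [h4] at h'
      simp only [cond_true] at h'
      exact usePat_sound hR he hm hw hwn' hT (hpat _) h' h2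
  | cons i ord ih =>
    intro U N s h1 h2 h
    have h' : (bif tb U i then
        bif Nat.beq (Nat.mod s 64) 0 then
          force 0 (fun s' => run (leaf tbl A m pats) A pats ord (Nat.xor U (bit i)) N s')
            (run (leaf tbl A m pats) A pats ord (Nat.xor U (Nat.land U (ball A i)))
              (Nat.lor N (bit i)) (Nat.shiftRight s 6))
        else usePat (getD 0 pats (Nat.pred (Nat.mod s 64))) U N s
      else run (leaf tbl A m pats) A pats ord U N s) ≠ 0 := h
    cases h3 : tb U i
    · rw [h3] at h'
      simp only [cond_false] at h'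
      exact ih _ _ _ h1 h2 h'
    rw [h3] at h'
    simp only [cond_true] at h'
    rw [tb_eq] at h3
    cases h4 : Nat.beq (Nat.mod s 64) 0
    · rw [h4] at h'
      simp only [cond_false] at h'
      exact usePat_sound hR he hm hw hwn' hT (hpat _) h' h2
    rw [h4] at h'
    simp only [cond_true] at h'
    set a := run (leaf tbl A m pats) A pats ord (Nat.xor U (Nat.land U (ball A i)))
              (Nat.lor N (bit i)) (Nat.shiftRight s 6) with ha
    have hforce : a ≠ 0 ∧ run (leaf tbl A m pats) A pats ord (Nat.xor U (bit i)) N a ≠ 0 := by
      cases hc : a with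
      | zero => rw [hc] at h'; exact absurd rfl h'
      | succ a' =>
        rw [hc] at h'
        exact ⟨by omega, h'⟩
    cases h5 : T.testBit i
    · refine ih _ _ _ ?_ ?_ hforce.2
      · intro j hj
        rw [xor_bit, bit_bit] at hj
        by_cases hij : i = j
        · subst hij
          rw [h3] at hj
          simp at hj
        · exact h1 j (by simpa [hij] using hj)
      · intro j hj
        rw [xor_bit, bit_bit] at hj
        by_cases hij : i = j
        · subst hij
          rw [h5, h1 i h3]
        · exact h2 j (by simpa [hij] using hj)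
    · refine ih _ _ _ ?_ ?_ hforce.1
      · intro j hj
        rw [xor_bit, land_bit] at hj
        have hjU : U.testBit j = true := by
          cases h6 : U.testBit j
          · rw [h6] at hj; simp at hj
          · rfl
        have hjb : (ball A i).testBit j = false := by
          rw [hjU] at hj
          simpa using hj
        rw [lor_bit, h1 j hjU, bit_bit]
        have hij : i ≠ j := by
          rintro rfl
          rw [ball_self] at hjb
          exact absurd hjb (by simp)
        simp [hij]
      · intro j hj
        rw [xor_bit, land_bit] at hj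
        rw [lor_bit, bit_bit]
        by_cases hij : i = j
        · subst hij
          rw [h5]
          simp
        · simp only [hij, decide_false, Bool.or_false]
          cases h6 : U.testBit j
          · exact h2 j h6
          · rw [h6] at hj
            have hjb : (ball A i).testBit j = true := by simpa using hj
            rw [hcl i j h5 hjb (Ne.symm hij), h1 j h6]

theorem wfr_spec (A m : Nat) : ∀ k, wfr A m k = true → ∀ i, i < k → row A i < 2 ^ m := by
  intro k
  induction k with
  | zero => intro _ i hi; omega
  | succ k ih =>
    intro h i hi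
    have h' : (bif Nat.blt (row A k) (bit m) then wfr A m k else false) = true := h
    cases h1 : Nat.blt (row A k) (bit m)
    · rw [h1] at h'; simp at h'
    rw [h1] at h'
    simp only [cond_true] at h'
    rw [blt_iff] at h1
    have hb : bit m = 2 ^ m := by
      have : bit m = 1 <<< m := rfl
      rw [this, Nat.one_shiftLeft]
    by_cases hik : i = k
    · subst hik; rw [← hb]; exact h1
    · exact ih h' i (by omega)

theorem wf_spec {A m : Nat} (h : wf A m = true) : WF m A := by
  have h' : (bif Nat.blt A (bit (32 * m)) then wfr A m m else false) = true := h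
  cases h1 : Nat.blt A (bit (32 * m))
  · rw [h1] at h'; simp at h'
  rw [h1] at h'
  simp only [cond_true] at h'
  rw [blt_iff] at h1
  have hb : bit (32 * m) = 2 ^ (32 * m) := by
    have : bit (32 * m) = 1 <<< (32 * m) := rfl
    rw [this, Nat.one_shiftLeft]
  rw [hb] at h1
  intro i j hij hj
  by_cases hi : i < m
  · have hjm : m ≤ j := by omega
    have h2 := wfr_spec A m m h' i hi
    have h3 : (row A i).testBit j = false :=
      Nat.testBit_lt_two_pow (lt_of_lt_of_le h2 (Nat.pow_le_pow_right (by omega) hjm))
    rw [row_bit] at h3
    simpa [hj] using h3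
  · exact Nat.testBit_lt_two_pow (lt_of_lt_of_le h1 (Nat.pow_le_pow_right (by omega) (by omega)))

theorem state_sound [Finite V] (hR : HypF R cs) {m : Nat} (hm : m < 31) (hpos : 0 < m)
    {tbl : Nat → Nat}
    (htbl : ∀ k, tbl k = 0 ∨ (OK R (m + 1) (tbl k) ∧ WF (m + 1) (tbl k))) {st : State}
    (h : okState cs m tbl st = true) : OK R m st.1 ∧ WF m st.1 := by
  classical
  obtain ⟨A, v, s, ord, pats⟩ := st
  unfold okState at h
  simp only at h
  cases h0 : wf A m
  · rw [h0] at h; simp at h
  rw [h0] at h
  simp only [cond_true] at h
  refine ⟨?_, wf_spec h0⟩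
  cases hp : allb (okPat A m cs) pats
  · rw [hp] at h; simp at h
  rw [hp] at h
  simp only [cond_true] at h
  intro φ he
  have hbm : bit m = 2 ^ m := by
    have : bit m = 1 <<< m := rfl
    rw [this, Nat.one_shiftLeft]
  have hfull : ∀ i, (Nat.pred (bit m)).testBit i = decide (i < m) := by
    intro i
    rw [hbm]
    exact Nat.testBit_two_pow_sub_one m i
  have mkT : ∀ w : V, ∃ T : Nat, ∀ i, T.testBit i = true ↔ i < m ∧ R w (φ i) := by
    intro w
    refine ⟨Nat.ofBits (fun i : Fin m => decide (R w (φ i))), fun i => ?_⟩
    by_cases h3 : i < m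
    · rw [Nat.testBit_ofBits_lt _ _ h3, decide_eq_true_eq]
      exact ⟨fun h => ⟨h3, h⟩, fun h => h.2⟩
    · rw [Nat.testBit_ofBits_ge _ _ (by omega)]
      constructor
      · intro h; simp at h
      · intro h; exact absurd h.1 h3
  cases h1 : Nat.beq v m
  · rw [h1] at h
    simp only [cond_false] at h
    cases h2 : Nat.blt v m
    · rw [h2] at h; simp at h
    rw [h2] at h
    simp only [cond_true] at h
    rw [blt_iff] at h2
    cases h3 : Nat.ble (cnt (row A v) m) 2
    · rw [h3] at h; simp at h
    rw [h3] at h
    simp only [cond_true] at h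
    rw [ble_iff] at h3
    cases h4 : Nat.beq (Nat.lor (orBits ord) (ball A v)) (Nat.pred (bit m))
    · rw [h4] at h; simp at h
    rw [h4] at h
    simp only [cond_true] at h
    rw [beq_iff] at h4
    cases h5 : tb (orBits ord) v
    swap
    · rw [h5] at h; simp at h
    rw [h5] at h
    simp only [cond_false] at h
    rw [beq_iff] at h
    rw [tb_eq] at h5
    obtain ⟨b, hb⟩ := he.nbr v h2
    obtain ⟨w, hw1, hw2⟩ := hR.deg _ _ hb
      (((List.range m).filter (fun j => (row A v).testBit j)).map φ)
      (by rw [List.length_map, ← cnt_eq]; exact h3)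
    obtain ⟨T, hT⟩ := mkT w
    have hw : ∀ i, i < m → φ i ≠ w := by
      rintro i hi rfl
      apply hw2
      rw [List.mem_map]
      refine ⟨i, ?_, rfl⟩
      rw [List.mem_filter, List.mem_range]
      refine ⟨hi, ?_⟩
      rw [row_bit, Bool.and_eq_true, decide_eq_true_eq]
      exact ⟨by omega, (he.adj _ _ h2 hi).1 hw1⟩
    have hTv : T.testBit v = true := (hT v).2 ⟨h2, hR.symm _ _ hw1⟩
    refine run_sound hR he hm hw ⟨v, h2, hR.symm _ _ hw1⟩ hT htbl hp ord (orBits ord) (bit v) s
      ?_ ?_ (by rw [h]; exact one_ne_zero)
    · intro i hi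
      rw [bit_bit]
      have : v ≠ i := by
        rintro rfl
        rw [h5] at hi
        exact absurd hi (by simp)
      simp [this]
    · intro i hi
      rw [bit_bit]
      by_cases hvi : v = i
      · subst hvi
        rw [hTv]
        simp
      · simp only [hvi, decide_false]
        by_cases him : i < m
        · have h6 : (Nat.lor (orBits ord) (ball A v)).testBit i = true := by
            rw [h4, hfull]
            simpa using him
          rw [lor_bit, hi, Bool.false_or] at h6
          rw [← Bool.not_eq_true]
          intro h7
          obtain ⟨a1, a2⟩ := (hT i).1 h7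
          have hvw : R (φ v) w := hw1
          rcases ball_of h6 with h8 | h8 | ⟨l, h8, h9⟩
          · exact hvi h8.symm
          · rw [row_bit, Bool.and_eq_true] at h8
            exact hR.tri (φ v) (φ i) w ((he.adj v i h2 a1).2 h8.2) (hR.symm _ _ a2)
              (hR.symm _ _ hw1)
          · rw [row_bit, Bool.and_eq_true, decide_eq_true_eq] at h8 h9
            have hl : l < m := by
              by_contra hl
              rw [he.out v l (Or.inr (by omega)) h8.1] at h8
              exact absurd h8.2 (by simp)
            exact hR.four w (φ v) (φ l) (φ i) (fun h => hw l hl h.symm)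
              (fun h => hvi (he.inj v i h2 a1 h)) (hR.symm _ _ hw1)
              ((he.adj v l h2 hl).2 h8.2) ((he.adj l i hl a1).2 h9.2) (hR.symm _ _ a2)
        · rw [← Bool.not_eq_true, hT]
          exact fun h => him h.1
  · rw [h1] at h
    simp only [cond_true] at h
    cases h2 : Nat.beq (orBits ord) (Nat.pred (bit m))
    · rw [h2] at h; simp at h
    rw [h2] at h
    simp only [cond_true] at h
    cases h3 : Nat.ble (oddc A m m) 17
    · rw [h3] at h; simp at h
    rw [h3] at h
    simp only [cond_true] at h
    rw [ble_iff] at h3
    rw [beq_iff] at h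
    have hinj : ∀ i j, i < m → j < m → φ i = φ j → i = j := fun i j hi hj => he.inj i j hi hj
    by_cases hcl : ∀ x ∈ (List.range m).map φ, ∀ y, R x y → y ∈ (List.range m).map φ
    · have h4 := hR.big ((List.range m).map φ) ?_ ?_ ?_ hcl
      · rw [List.filter_map, List.length_map] at h4
        rw [oddc_eq] at h3
        have h5 : (List.range m).filter ((fun x => decide ((((List.range m).map φ).filter
            (fun y => decide (R x y))).length % 2 = 1)) ∘ φ) =
            (List.range m).filter (fun i => decide (cnt (row A i) m % 2 = 1)) := by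
          refine List.filter_congr fun i hi => ?_
          rw [List.mem_range] at hi
          have h6 : (((List.range m).map φ).filter (fun y => decide (R (φ i) y))).length =
              cnt (row A i) m := by
            rw [List.filter_map, List.length_map, cnt_eq]
            congr 1
            refine List.filter_congr fun j hj => ?_
            rw [List.mem_range] at hj
            show decide (R (φ i) (φ j)) = _
            rw [row_bit]
            have hj32 : j < 32 := by omega
            simp only [hj32, decide_true, Bool.true_and]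
            rw [Bool.eq_iff_iff, decide_eq_true_eq]
            exact he.adj i j hi hj
          show decide ((((List.range m).map φ).filter (fun y => decide (R (φ i) y))).length % 2 = 1)
            = _
          rw [h6]
        rw [h5] at h4
        omega
      · rw [List.nodup_map_iff_inj_on (List.nodup_range)]
        intro x hx y hy hxy
        exact hinj x y (List.mem_range.1 hx) (List.mem_range.1 hy) hxy
      · intro h6
        rw [List.map_eq_nil_iff, List.range_eq_nil] at h6
        omega
      · intro x hx
        obtain ⟨i, hi, rfl⟩ := List.mem_map.1 hx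
        exact he.nbr i (List.mem_range.1 hi)
    · push Not at hcl
      obtain ⟨x, hx, w, hxw, hw⟩ := hcl
      obtain ⟨i, hi, rfl⟩ := List.mem_map.1 hx
      rw [List.mem_range] at hi
      obtain ⟨T, hT⟩ := mkT w
      refine run_sound hR he hm (w := w) ?_ ⟨i, hi, hR.symm _ _ hxw⟩ hT htbl hp ord _ _ s
        ?_ ?_ (by rw [h]; exact one_ne_zero)
      · rintro j hj rfl
        exact hw (List.mem_map.2 ⟨j, List.mem_range.2 hj, rfl⟩)
      · intro j _
        exact Nat.zero_testBit j
      · intro j hj
        rw [hfull, decide_eq_false_iff_not] at hj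
        rw [Nat.zero_testBit, ← Bool.not_eq_true, hT]
        exact fun h => hj h.1

/-- all states of a level do not occur -/
def Lev (R : V → V → Prop) (m : Nat) (l : List (List State)) : Prop :=
  ∀ ll ∈ l, ∀ st ∈ ll, OK R m st.1 ∧ WF m st.1

theorem lev_tbl {m : Nat} {l : List (List State)} (h : Lev R m l) (k : Nat) :
    tblOf l k = 0 ∨ (OK R m (tblOf l k) ∧ WF m (tblOf l k)) := by
  unfold tblOf
  rcases getD_mem ((0, 0, 0, [], []) : State) (getD [] l (Nat.shiftRight k 5)) (Nat.mod k 32)
    with h1 | h1
  · left
    show (getD ((0, 0, 0, [], []) : State) (getD [] l (Nat.shiftRight k 5)) (Nat.mod k 32)).1 = 0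
    rw [h1]
  · right
    rcases getD_mem [] l (Nat.shiftRight k 5) with h2 | h2
    · rw [h2] at h1
      exact absurd h1 (by simp)
    · exact h _ h2 _ h1

theorem lev_nil (m : Nat) : Lev R m [] := fun ll h => absurd h (by simp)

theorem lev_step [Finite V] (hR : HypF R cs) {m : Nat} {l l' : List (List State)}
    (hm : m + 1 < 31) (h : OkL cs (m + 1) l l') (h' : Lev R (m + 2) l') : Lev R (m + 1) l := by
  intro ll hll st hst
  exact state_sound hR hm (by omega) (lev_tbl h') (allb_mem (h ll hll) st hst)

/-- the first state is a vertex -/
theorem lev_one {l : List (List State)} {ll : List State} {st : State}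
    (h : Lev R 1 ((st :: ll) :: l)) (h0 : st.1 = 0) (hR : ∀ a, ¬ R a a) {a b : V} (hab : R a b) :
    False := by
  obtain ⟨h1, -⟩ := h _ (List.mem_cons_self ..) st (List.mem_cons_self ..)
  refine h1 (fun _ => a) ⟨?_, ?_, ?_, ?_⟩
  · intro i j hi hj
    constructor
    · intro h; exact absurd h (hR a)
    · intro h; rw [h0] at h; simp at h
  · intro i j _ _
    rw [h0]
    simp
  · intro i j hi hj _
    omega
  · intro i _
    exact ⟨b, hab⟩

end

end Pool.Agent.V8H13.LF
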