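import Pool.Agent.V8H13.LF.CertT9
import Pool.Agent.V8H13.LF.CertT81
import Pool.Agent.V8H13.LF.CertT72
import Pool.Agent.V8H13.LF.CertT711
import Pool.Agent.V8H13.LF.CertT63
import Pool.Agent.V8H13.LF.CertT621
import Pool.Agent.V8H13.LF.CertT6111
import Pool.Agent.V8H13.LF.CertT54
import Pool.Agent.V8H13.LF.CertT531
import Pool.Agent.V8H13.LF.CertT522
import Pool.Agent.V8H13.LF.CertT5211
import Pool.Agent.V8H13.LF.CertT441
import Pool.Agent.V8H13.LF.CertT432
import Pool.Agent.V8H13.LF.CertT4311
import Pool.Agent.V8H13.LF.CertT4221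
import Pool.Agent.V8H13.LF.CertT3321
import Pool.Agent.V8H13.LF.CertT3222
import Pool.Agent.V8H13.LF.Sound2

set_option autoImplicit false

/-!
# The searches for the linear forests with nine vertices
-/

namespace Pool.Agent.V8H13.LF

theorem T9.no {V : Type} [Finite V] {R : V → V → Prop} (hR : HypF R T9.cs) {a b : V}
    (hab : R a b) : False := by
  have h21 : Lev R 21 T9.l21 := lev_nil _
  have h20 : Lev R 20 T9.l20 := lev_step (m := 19) hR (by decide) T9.c20 h21
  have h19 : Lev R 19 T9.l19 := lev_step (m := 18) hR (by decide) T9.c19 h20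
  have h18 : Lev R 18 T9.l18 := lev_step (m := 17) hR (by decide) T9.c18 h19
  have h17 : Lev R 17 T9.l17 := lev_step (m := 16) hR (by decide) T9.c17 h18
  have h16 : Lev R 16 T9.l16 := lev_step (m := 15) hR (by decide) T9.c16 h17
  have h15 : Lev R 15 T9.l15 := lev_step (m := 14) hR (by decide) T9.c15 h16
  have h14 : Lev R 14 T9.l14 := lev_step (m := 13) hR (by decide) T9.c14 h15
  have h13 : Lev R 13 T9.l13 := lev_step (m := 12) hR (by decide) T9.c13 h14
  have h12 : Lev R 12 T9.l12 := lev_step (m := 11) hR (by decide) T9.c12 h13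
  have h11 : Lev R 11 T9.l11 := lev_step (m := 10) hR (by decide) T9.c11 h12
  have h10 : Lev R 10 T9.l10 := lev_step (m := 9) hR (by decide) T9.c10 h11
  have h9 : Lev R 9 T9.l9 := lev_step (m := 8) hR (by decide) T9.c9 h10
  have h8 : Lev R 8 T9.l8 := lev_step (m := 7) hR (by decide) T9.c8 h9
  have h7 : Lev R 7 T9.l7 := lev_step (m := 6) hR (by decide) T9.c7 h8
  have h6 : Lev R 6 T9.l6 := lev_step (m := 5) hR (by decide) T9.c6 h7
  have h5 : Lev R 5 T9.l5 := lev_step (m := 4) hR (by decide) T9.c5 h6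
  have h4 : Lev R 4 T9.l4 := lev_step (m := 3) hR (by decide) T9.c4 h5
  have h3 : Lev R 3 T9.l3 := lev_step (m := 2) hR (by decide) T9.c3 h4
  have h2 : Lev R 2 T9.l2 := lev_step (m := 1) hR (by decide) T9.c2 h3
  have h1 : Lev R 1 T9.l1 := lev_step (m := 0) hR (by decide) T9.c1 h2
  exact lev_one (l := []) (ll := []) h1 rfl hR.irr hab

theorem T81.no {V : Type} [Finite V] {R : V → V → Prop} (hR : HypF R T81.cs) {a b : V}
    (hab : R a b) : False := by
  have h16 : Lev R 16 T81.l16 := lev_nil _
  have h15 : Lev R 15 T81.l15 := lev_step (m := 14) hR (by decide) T81.c15 h16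
  have h14 : Lev R 14 T81.l14 := lev_step (m := 13) hR (by decide) T81.c14 h15
  have h13 : Lev R 13 T81.l13 := lev_step (m := 12) hR (by decide) T81.c13 h14
  have h12 : Lev R 12 T81.l12 := lev_step (m := 11) hR (by decide) T81.c12 h13
  have h11 : Lev R 11 T81.l11 := lev_step (m := 10) hR (by decide) T81.c11 h12
  have h10 : Lev R 10 T81.l10 := lev_step (m := 9) hR (by decide) T81.c10 h11
  have h9 : Lev R 9 T81.l9 := lev_step (m := 8) hR (by decide) T81.c9 h10
  have h8 : Lev R 8 T81.l8 := lev_step (m := 7) hR (by decide) T81.c8 h9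
  have h7 : Lev R 7 T81.l7 := lev_step (m := 6) hR (by decide) T81.c7 h8
  have h6 : Lev R 6 T81.l6 := lev_step (m := 5) hR (by decide) T81.c6 h7
  have h5 : Lev R 5 T81.l5 := lev_step (m := 4) hR (by decide) T81.c5 h6
  have h4 : Lev R 4 T81.l4 := lev_step (m := 3) hR (by decide) T81.c4 h5
  have h3 : Lev R 3 T81.l3 := lev_step (m := 2) hR (by decide) T81.c3 h4
  have h2 : Lev R 2 T81.l2 := lev_step (m := 1) hR (by decide) T81.c2 h3
  have h1 : Lev R 1 T81.l1 := lev_step (m := 0) hR (by decide) T81.c1 h2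
  exact lev_one (l := []) (ll := []) h1 rfl hR.irr hab

theorem T72.no {V : Type} [Finite V] {R : V → V → Prop} (hR : HypF R T72.cs) {a b : V}
    (hab : R a b) : False := by
  have h18 : Lev R 18 T72.l18 := lev_nil _
  have h17 : Lev R 17 T72.l17 := lev_step (m := 16) hR (by decide) T72.c17 h18
  have h16 : Lev R 16 T72.l16 := lev_step (m := 15) hR (by decide) T72.c16 h17
  have h15 : Lev R 15 T72.l15 := lev_step (m := 14) hR (by decide) T72.c15 h16
  have h14 : Lev R 14 T72.l14 := lev_step (m := 13) hR (by decide) T72.c14 h15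
  have h13 : Lev R 13 T72.l13 := lev_step (m := 12) hR (by decide) T72.c13 h14
  have h12 : Lev R 12 T72.l12 := lev_step (m := 11) hR (by decide) T72.c12 h13
  have h11 : Lev R 11 T72.l11 := lev_step (m := 10) hR (by decide) T72.c11 h12
  have h10 : Lev R 10 T72.l10 := lev_step (m := 9) hR (by decide) T72.c10 h11
  have h9 : Lev R 9 T72.l9 := lev_step (m := 8) hR (by decide) T72.c9 h10
  have h8 : Lev R 8 T72.l8 := lev_step (m := 7) hR (by decide) T72.c8 h9
  have h7 : Lev R 7 T72.l7 := lev_step (m := 6) hR (by decide) T72.c7 h8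
  have h6 : Lev R 6 T72.l6 := lev_step (m := 5) hR (by decide) T72.c6 h7
  have h5 : Lev R 5 T72.l5 := lev_step (m := 4) hR (by decide) T72.c5 h6
  have h4 : Lev R 4 T72.l4 := lev_step (m := 3) hR (by decide) T72.c4 h5
  have h3 : Lev R 3 T72.l3 := lev_step (m := 2) hR (by decide) T72.c3 h4
  have h2 : Lev R 2 T72.l2 := lev_step (m := 1) hR (by decide) T72.c2 h3
  have h1 : Lev R 1 T72.l1 := lev_step (m := 0) hR (by decide) T72.c1 h2
  exact lev_one (l := []) (ll := []) h1 rfl hR.irr hab

theorem T711.no {V : Type} [Finite V] {R : V → V → Prop} (hR : HypF R T711.cs) {a b : V}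
    (hab : R a b) : False := by
  have h15 : Lev R 15 T711.l15 := lev_nil _
  have h14 : Lev R 14 T711.l14 := lev_step (m := 13) hR (by decide) T711.c14 h15
  have h13 : Lev R 13 T711.l13 := lev_step (m := 12) hR (by decide) T711.c13 h14
  have h12 : Lev R 12 T711.l12 := lev_step (m := 11) hR (by decide) T711.c12 h13
  have h11 : Lev R 11 T711.l11 := lev_step (m := 10) hR (by decide) T711.c11 h12
  have h10 : Lev R 10 T711.l10 := lev_step (m := 9) hR (by decide) T711.c10 h11
  have h9 : Lev R 9 T711.l9 := lev_step (m := 8) hR (by decide) T711.c9 h10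
  have h8 : Lev R 8 T711.l8 := lev_step (m := 7) hR (by decide) T711.c8 h9
  have h7 : Lev R 7 T711.l7 := lev_step (m := 6) hR (by decide) T711.c7 h8
  have h6 : Lev R 6 T711.l6 := lev_step (m := 5) hR (by decide) T711.c6 h7
  have h5 : Lev R 5 T711.l5 := lev_step (m := 4) hR (by decide) T711.c5 h6
  have h4 : Lev R 4 T711.l4 := lev_step (m := 3) hR (by decide) T711.c4 h5
  have h3 : Lev R 3 T711.l3 := lev_step (m := 2) hR (by decide) T711.c3 h4
  have h2 : Lev R 2 T711.l2 := lev_step (m := 1) hR (by decide) T711.c2 h3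
  have h1 : Lev R 1 T711.l1 := lev_step (m := 0) hR (by decide) T711.c1 h2
  exact lev_one (l := []) (ll := []) h1 rfl hR.irr hab

theorem T63.no {V : Type} [Finite V] {R : V → V → Prop} (hR : HypF R T63.cs) {a b : V}
    (hab : R a b) : False := by
  have h19 : Lev R 19 T63.l19 := lev_nil _
  have h18 : Lev R 18 T63.l18 := lev_step (m := 17) hR (by decide) T63.c18 h19
  have h17 : Lev R 17 T63.l17 := lev_step (m := 16) hR (by decide) T63.c17 h18
  have h16 : Lev R 16 T63.l16 := lev_step (m := 15) hR (by decide) T63.c16 h17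
  have h15 : Lev R 15 T63.l15 := lev_step (m := 14) hR (by decide) T63.c15 h16
  have h14 : Lev R 14 T63.l14 := lev_step (m := 13) hR (by decide) T63.c14 h15
  have h13 : Lev R 13 T63.l13 := lev_step (m := 12) hR (by decide) T63.c13 h14
  have h12 : Lev R 12 T63.l12 := lev_step (m := 11) hR (by decide) T63.c12 h13
  have h11 : Lev R 11 T63.l11 := lev_step (m := 10) hR (by decide) T63.c11 h12
  have h10 : Lev R 10 T63.l10 := lev_step (m := 9) hR (by decide) T63.c10 h11
  have h9 : Lev R 9 T63.l9 := lev_step (m := 8) hR (by decide) T63.c9 h10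
  have h8 : Lev R 8 T63.l8 := lev_step (m := 7) hR (by decide) T63.c8 h9
  have h7 : Lev R 7 T63.l7 := lev_step (m := 6) hR (by decide) T63.c7 h8
  have h6 : Lev R 6 T63.l6 := lev_step (m := 5) hR (by decide) T63.c6 h7
  have h5 : Lev R 5 T63.l5 := lev_step (m := 4) hR (by decide) T63.c5 h6
  have h4 : Lev R 4 T63.l4 := lev_step (m := 3) hR (by decide) T63.c4 h5
  have h3 : Lev R 3 T63.l3 := lev_step (m := 2) hR (by decide) T63.c3 h4
  have h2 : Lev R 2 T63.l2 := lev_step (m := 1) hR (by decide) T63.c2 h3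
  have h1 : Lev R 1 T63.l1 := lev_step (m := 0) hR (by decide) T63.c1 h2
  exact lev_one (l := []) (ll := []) h1 rfl hR.irr hab

theorem T621.no {V : Type} [Finite V] {R : V → V → Prop} (hR : HypF R T621.cs) {a b : V}
    (hab : R a b) : False := by
  have h17 : Lev R 17 T621.l17 := lev_nil _
  have h16 : Lev R 16 T621.l16 := lev_step (m := 15) hR (by decide) T621.c16 h17
  have h15 : Lev R 15 T621.l15 := lev_step (m := 14) hR (by decide) T621.c15 h16
  have h14 : Lev R 14 T621.l14 := lev_step (m := 13) hR (by decide) T621.c14 h15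
  have h13 : Lev R 13 T621.l13 := lev_step (m := 12) hR (by decide) T621.c13 h14
  have h12 : Lev R 12 T621.l12 := lev_step (m := 11) hR (by decide) T621.c12 h13
  have h11 : Lev R 11 T621.l11 := lev_step (m := 10) hR (by decide) T621.c11 h12
  have h10 : Lev R 10 T621.l10 := lev_step (m := 9) hR (by decide) T621.c10 h11
  have h9 : Lev R 9 T621.l9 := lev_step (m := 8) hR (by decide) T621.c9 h10
  have h8 : Lev R 8 T621.l8 := lev_step (m := 7) hR (by decide) T621.c8 h9
  have h7 : Lev R 7 T621.l7 := lev_step (m := 6) hR (by decide) T621.c7 h8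
  have h6 : Lev R 6 T621.l6 := lev_step (m := 5) hR (by decide) T621.c6 h7
  have h5 : Lev R 5 T621.l5 := lev_step (m := 4) hR (by decide) T621.c5 h6
  have h4 : Lev R 4 T621.l4 := lev_step (m := 3) hR (by decide) T621.c4 h5
  have h3 : Lev R 3 T621.l3 := lev_step (m := 2) hR (by decide) T621.c3 h4
  have h2 : Lev R 2 T621.l2 := lev_step (m := 1) hR (by decide) T621.c2 h3
  have h1 : Lev R 1 T621.l1 := lev_step (m := 0) hR (by decide) T621.c1 h2
  exact lev_one (l := []) (ll := []) h1 rfl hR.irr hab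

theorem T6111.no {V : Type} [Finite V] {R : V → V → Prop} (hR : HypF R T6111.cs) {a b : V}
    (hab : R a b) : False := by
  have h17 : Lev R 17 T6111.l17 := lev_nil _
  have h16 : Lev R 16 T6111.l16 := lev_step (m := 15) hR (by decide) T6111.c16 h17
  have h15 : Lev R 15 T6111.l15 := lev_step (m := 14) hR (by decide) T6111.c15 h16
  have h14 : Lev R 14 T6111.l14 := lev_step (m := 13) hR (by decide) T6111.c14 h15
  have h13 : Lev R 13 T6111.l13 := lev_step (m := 12) hR (by decide) T6111.c13 h14
  have h12 : Lev R 12 T6111.l12 := lev_step (m := 11) hR (by decide) T6111.c12 h13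
  have h11 : Lev R 11 T6111.l11 := lev_step (m := 10) hR (by decide) T6111.c11 h12
  have h10 : Lev R 10 T6111.l10 := lev_step (m := 9) hR (by decide) T6111.c10 h11
  have h9 : Lev R 9 T6111.l9 := lev_step (m := 8) hR (by decide) T6111.c9 h10
  have h8 : Lev R 8 T6111.l8 := lev_step (m := 7) hR (by decide) T6111.c8 h9
  have h7 : Lev R 7 T6111.l7 := lev_step (m := 6) hR (by decide) T6111.c7 h8
  have h6 : Lev R 6 T6111.l6 := lev_step (m := 5) hR (by decide) T6111.c6 h7
  have h5 : Lev R 5 T6111.l5 := lev_step (m := 4) hR (by decide) T6111.c5 h6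
  have h4 : Lev R 4 T6111.l4 := lev_step (m := 3) hR (by decide) T6111.c4 h5
  have h3 : Lev R 3 T6111.l3 := lev_step (m := 2) hR (by decide) T6111.c3 h4
  have h2 : Lev R 2 T6111.l2 := lev_step (m := 1) hR (by decide) T6111.c2 h3
  have h1 : Lev R 1 T6111.l1 := lev_step (m := 0) hR (by decide) T6111.c1 h2
  exact lev_one (l := []) (ll := []) h1 rfl hR.irr hab

theorem T54.no {V : Type} [Finite V] {R : V → V → Prop} (hR : HypF R T54.cs) {a b : V}
    (hab : R a b) : False := by
  have h20 : Lev R 20 T54.l20 := lev_nil _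
  have h19 : Lev R 19 T54.l19 := lev_step (m := 18) hR (by decide) T54.c19 h20
  have h18 : Lev R 18 T54.l18 := lev_step (m := 17) hR (by decide) T54.c18 h19
  have h17 : Lev R 17 T54.l17 := lev_step (m := 16) hR (by decide) T54.c17 h18
  have h16 : Lev R 16 T54.l16 := lev_step (m := 15) hR (by decide) T54.c16 h17
  have h15 : Lev R 15 T54.l15 := lev_step (m := 14) hR (by decide) T54.c15 h16
  have h14 : Lev R 14 T54.l14 := lev_step (m := 13) hR (by decide) T54.c14 h15
  have h13 : Lev R 13 T54.l13 := lev_step (m := 12) hR (by decide) T54.c13 h14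
  have h12 : Lev R 12 T54.l12 := lev_step (m := 11) hR (by decide) T54.c12 h13
  have h11 : Lev R 11 T54.l11 := lev_step (m := 10) hR (by decide) T54.c11 h12
  have h10 : Lev R 10 T54.l10 := lev_step (m := 9) hR (by decide) T54.c10 h11
  have h9 : Lev R 9 T54.l9 := lev_step (m := 8) hR (by decide) T54.c9 h10
  have h8 : Lev R 8 T54.l8 := lev_step (m := 7) hR (by decide) T54.c8 h9
  have h7 : Lev R 7 T54.l7 := lev_step (m := 6) hR (by decide) T54.c7 h8
  have h6 : Lev R 6 T54.l6 := lev_step (m := 5) hR (by decide) T54.c6 h7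
  have h5 : Lev R 5 T54.l5 := lev_step (m := 4) hR (by decide) T54.c5 h6
  have h4 : Lev R 4 T54.l4 := lev_step (m := 3) hR (by decide) T54.c4 h5
  have h3 : Lev R 3 T54.l3 := lev_step (m := 2) hR (by decide) T54.c3 h4
  have h2 : Lev R 2 T54.l2 := lev_step (m := 1) hR (by decide) T54.c2 h3
  have h1 : Lev R 1 T54.l1 := lev_step (m := 0) hR (by decide) T54.c1 h2
  exact lev_one (l := []) (ll := []) h1 rfl hR.irr hab

theorem T531.no {V : Type} [Finite V] {R : V → V → Prop} (hR : HypF R T531.cs) {a b : V}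
    (hab : R a b) : False := by
  have h17 : Lev R 17 T531.l17 := lev_nil _
  have h16 : Lev R 16 T531.l16 := lev_step (m := 15) hR (by decide) T531.c16 h17
  have h15 : Lev R 15 T531.l15 := lev_step (m := 14) hR (by decide) T531.c15 h16
  have h14 : Lev R 14 T531.l14 := lev_step (m := 13) hR (by decide) T531.c14 h15
  have h13 : Lev R 13 T531.l13 := lev_step (m := 12) hR (by decide) T531.c13 h14
  have h12 : Lev R 12 T531.l12 := lev_step (m := 11) hR (by decide) T531.c12 h13
  have h11 : Lev R 11 T531.l11 := lev_step (m := 10) hR (by decide) T531.c11 h12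
  have h10 : Lev R 10 T531.l10 := lev_step (m := 9) hR (by decide) T531.c10 h11
  have h9 : Lev R 9 T531.l9 := lev_step (m := 8) hR (by decide) T531.c9 h10
  have h8 : Lev R 8 T531.l8 := lev_step (m := 7) hR (by decide) T531.c8 h9
  have h7 : Lev R 7 T531.l7 := lev_step (m := 6) hR (by decide) T531.c7 h8
  have h6 : Lev R 6 T531.l6 := lev_step (m := 5) hR (by decide) T531.c6 h7
  have h5 : Lev R 5 T531.l5 := lev_step (m := 4) hR (by decide) T531.c5 h6
  have h4 : Lev R 4 T531.l4 := lev_step (m := 3) hR (by decide) T531.c4 h5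
  have h3 : Lev R 3 T531.l3 := lev_step (m := 2) hR (by decide) T531.c3 h4
  have h2 : Lev R 2 T531.l2 := lev_step (m := 1) hR (by decide) T531.c2 h3
  have h1 : Lev R 1 T531.l1 := lev_step (m := 0) hR (by decide) T531.c1 h2
  exact lev_one (l := []) (ll := []) h1 rfl hR.irr hab

theorem T522.no {V : Type} [Finite V] {R : V → V → Prop} (hR : HypF R T522.cs) {a b : V}
    (hab : R a b) : False := by
  have h17 : Lev R 17 T522.l17 := lev_nil _
  have h16 : Lev R 16 T522.l16 := lev_step (m := 15) hR (by decide) T522.c16 h17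
  have h15 : Lev R 15 T522.l15 := lev_step (m := 14) hR (by decide) T522.c15 h16
  have h14 : Lev R 14 T522.l14 := lev_step (m := 13) hR (by decide) T522.c14 h15
  have h13 : Lev R 13 T522.l13 := lev_step (m := 12) hR (by decide) T522.c13 h14
  have h12 : Lev R 12 T522.l12 := lev_step (m := 11) hR (by decide) T522.c12 h13
  have h11 : Lev R 11 T522.l11 := lev_step (m := 10) hR (by decide) T522.c11 h12
  have h10 : Lev R 10 T522.l10 := lev_step (m := 9) hR (by decide) T522.c10 h11
  have h9 : Lev R 9 T522.l9 := lev_step (m := 8) hR (by decide) T522.c9 h10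
  have h8 : Lev R 8 T522.l8 := lev_step (m := 7) hR (by decide) T522.c8 h9
  have h7 : Lev R 7 T522.l7 := lev_step (m := 6) hR (by decide) T522.c7 h8
  have h6 : Lev R 6 T522.l6 := lev_step (m := 5) hR (by decide) T522.c6 h7
  have h5 : Lev R 5 T522.l5 := lev_step (m := 4) hR (by decide) T522.c5 h6
  have h4 : Lev R 4 T522.l4 := lev_step (m := 3) hR (by decide) T522.c4 h5
  have h3 : Lev R 3 T522.l3 := lev_step (m := 2) hR (by decide) T522.c3 h4
  have h2 : Lev R 2 T522.l2 := lev_step (m := 1) hR (by decide) T522.c2 h3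
  have h1 : Lev R 1 T522.l1 := lev_step (m := 0) hR (by decide) T522.c1 h2
  exact lev_one (l := []) (ll := []) h1 rfl hR.irr hab

theorem T5211.no {V : Type} [Finite V] {R : V → V → Prop} (hR : HypF R T5211.cs) {a b : V}
    (hab : R a b) : False := by
  have h16 : Lev R 16 T5211.l16 := lev_nil _
  have h15 : Lev R 15 T5211.l15 := lev_step (m := 14) hR (by decide) T5211.c15 h16
  have h14 : Lev R 14 T5211.l14 := lev_step (m := 13) hR (by decide) T5211.c14 h15
  have h13 : Lev R 13 T5211.l13 := lev_step (m := 12) hR (by decide) T5211.c13 h14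
  have h12 : Lev R 12 T5211.l12 := lev_step (m := 11) hR (by decide) T5211.c12 h13
  have h11 : Lev R 11 T5211.l11 := lev_step (m := 10) hR (by decide) T5211.c11 h12
  have h10 : Lev R 10 T5211.l10 := lev_step (m := 9) hR (by decide) T5211.c10 h11
  have h9 : Lev R 9 T5211.l9 := lev_step (m := 8) hR (by decide) T5211.c9 h10
  have h8 : Lev R 8 T5211.l8 := lev_step (m := 7) hR (by decide) T5211.c8 h9
  have h7 : Lev R 7 T5211.l7 := lev_step (m := 6) hR (by decide) T5211.c7 h8
  have h6 : Lev R 6 T5211.l6 := lev_step (m := 5) hR (by decide) T5211.c6 h7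
  have h5 : Lev R 5 T5211.l5 := lev_step (m := 4) hR (by decide) T5211.c5 h6
  have h4 : Lev R 4 T5211.l4 := lev_step (m := 3) hR (by decide) T5211.c4 h5
  have h3 : Lev R 3 T5211.l3 := lev_step (m := 2) hR (by decide) T5211.c3 h4
  have h2 : Lev R 2 T5211.l2 := lev_step (m := 1) hR (by decide) T5211.c2 h3
  have h1 : Lev R 1 T5211.l1 := lev_step (m := 0) hR (by decide) T5211.c1 h2
  exact lev_one (l := []) (ll := []) h1 rfl hR.irr hab

theorem T441.no {V : Type} [Finite V] {R : V → V → Prop} (hR : HypF R T441.cs) {a b : V}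
    (hab : R a b) : False := by
  have h18 : Lev R 18 T441.l18 := lev_nil _
  have h17 : Lev R 17 T441.l17 := lev_step (m := 16) hR (by decide) T441.c17 h18
  have h16 : Lev R 16 T441.l16 := lev_step (m := 15) hR (by decide) T441.c16 h17
  have h15 : Lev R 15 T441.l15 := lev_step (m := 14) hR (by decide) T441.c15 h16
  have h14 : Lev R 14 T441.l14 := lev_step (m := 13) hR (by decide) T441.c14 h15
  have h13 : Lev R 13 T441.l13 := lev_step (m := 12) hR (by decide) T441.c13 h14
  have h12 : Lev R 12 T441.l12 := lev_step (m := 11) hR (by decide) T441.c12 h13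
  have h11 : Lev R 11 T441.l11 := lev_step (m := 10) hR (by decide) T441.c11 h12
  have h10 : Lev R 10 T441.l10 := lev_step (m := 9) hR (by decide) T441.c10 h11
  have h9 : Lev R 9 T441.l9 := lev_step (m := 8) hR (by decide) T441.c9 h10
  have h8 : Lev R 8 T441.l8 := lev_step (m := 7) hR (by decide) T441.c8 h9
  have h7 : Lev R 7 T441.l7 := lev_step (m := 6) hR (by decide) T441.c7 h8
  have h6 : Lev R 6 T441.l6 := lev_step (m := 5) hR (by decide) T441.c6 h7
  have h5 : Lev R 5 T441.l5 := lev_step (m := 4) hR (by decide) T441.c5 h6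
  have h4 : Lev R 4 T441.l4 := lev_step (m := 3) hR (by decide) T441.c4 h5
  have h3 : Lev R 3 T441.l3 := lev_step (m := 2) hR (by decide) T441.c3 h4
  have h2 : Lev R 2 T441.l2 := lev_step (m := 1) hR (by decide) T441.c2 h3
  have h1 : Lev R 1 T441.l1 := lev_step (m := 0) hR (by decide) T441.c1 h2
  exact lev_one (l := []) (ll := []) h1 rfl hR.irr hab

theorem T432.no {V : Type} [Finite V] {R : V → V → Prop} (hR : HypF R T432.cs) {a b : V}
    (hab : R a b) : False := by
  have h19 : Lev R 19 T432.l19 := lev_nil _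
  have h18 : Lev R 18 T432.l18 := lev_step (m := 17) hR (by decide) T432.c18 h19
  have h17 : Lev R 17 T432.l17 := lev_step (m := 16) hR (by decide) T432.c17 h18
  have h16 : Lev R 16 T432.l16 := lev_step (m := 15) hR (by decide) T432.c16 h17
  have h15 : Lev R 15 T432.l15 := lev_step (m := 14) hR (by decide) T432.c15 h16
  have h14 : Lev R 14 T432.l14 := lev_step (m := 13) hR (by decide) T432.c14 h15
  have h13 : Lev R 13 T432.l13 := lev_step (m := 12) hR (by decide) T432.c13 h14
  have h12 : Lev R 12 T432.l12 := lev_step (m := 11) hR (by decide) T432.c12 h13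
  have h11 : Lev R 11 T432.l11 := lev_step (m := 10) hR (by decide) T432.c11 h12
  have h10 : Lev R 10 T432.l10 := lev_step (m := 9) hR (by decide) T432.c10 h11
  have h9 : Lev R 9 T432.l9 := lev_step (m := 8) hR (by decide) T432.c9 h10
  have h8 : Lev R 8 T432.l8 := lev_step (m := 7) hR (by decide) T432.c8 h9
  have h7 : Lev R 7 T432.l7 := lev_step (m := 6) hR (by decide) T432.c7 h8
  have h6 : Lev R 6 T432.l6 := lev_step (m := 5) hR (by decide) T432.c6 h7
  have h5 : Lev R 5 T432.l5 := lev_step (m := 4) hR (by decide) T432.c5 h6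
  have h4 : Lev R 4 T432.l4 := lev_step (m := 3) hR (by decide) T432.c4 h5
  have h3 : Lev R 3 T432.l3 := lev_step (m := 2) hR (by decide) T432.c3 h4
  have h2 : Lev R 2 T432.l2 := lev_step (m := 1) hR (by decide) T432.c2 h3
  have h1 : Lev R 1 T432.l1 := lev_step (m := 0) hR (by decide) T432.c1 h2
  exact lev_one (l := []) (ll := []) h1 rfl hR.irr hab

theorem T4311.no {V : Type} [Finite V] {R : V → V → Prop} (hR : HypF R T4311.cs) {a b : V}
    (hab : R a b) : False := by
  have h17 : Lev R 17 T4311.l17 := lev_nil _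
  have h16 : Lev R 16 T4311.l16 := lev_step (m := 15) hR (by decide) T4311.c16 h17
  have h15 : Lev R 15 T4311.l15 := lev_step (m := 14) hR (by decide) T4311.c15 h16
  have h14 : Lev R 14 T4311.l14 := lev_step (m := 13) hR (by decide) T4311.c14 h15
  have h13 : Lev R 13 T4311.l13 := lev_step (m := 12) hR (by decide) T4311.c13 h14
  have h12 : Lev R 12 T4311.l12 := lev_step (m := 11) hR (by decide) T4311.c12 h13
  have h11 : Lev R 11 T4311.l11 := lev_step (m := 10) hR (by decide) T4311.c11 h12
  have h10 : Lev R 10 T4311.l10 := lev_step (m := 9) hR (by decide) T4311.c10 h11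
  have h9 : Lev R 9 T4311.l9 := lev_step (m := 8) hR (by decide) T4311.c9 h10
  have h8 : Lev R 8 T4311.l8 := lev_step (m := 7) hR (by decide) T4311.c8 h9
  have h7 : Lev R 7 T4311.l7 := lev_step (m := 6) hR (by decide) T4311.c7 h8
  have h6 : Lev R 6 T4311.l6 := lev_step (m := 5) hR (by decide) T4311.c6 h7
  have h5 : Lev R 5 T4311.l5 := lev_step (m := 4) hR (by decide) T4311.c5 h6
  have h4 : Lev R 4 T4311.l4 := lev_step (m := 3) hR (by decide) T4311.c4 h5
  have h3 : Lev R 3 T4311.l3 := lev_step (m := 2) hR (by decide) T4311.c3 h4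
  have h2 : Lev R 2 T4311.l2 := lev_step (m := 1) hR (by decide) T4311.c2 h3
  have h1 : Lev R 1 T4311.l1 := lev_step (m := 0) hR (by decide) T4311.c1 h2
  exact lev_one (l := []) (ll := []) h1 rfl hR.irr hab

theorem T4221.no {V : Type} [Finite V] {R : V → V → Prop} (hR : HypF R T4221.cs) {a b : V}
    (hab : R a b) : False := by
  have h16 : Lev R 16 T4221.l16 := lev_nil _
  have h15 : Lev R 15 T4221.l15 := lev_step (m := 14) hR (by decide) T4221.c15 h16
  have h14 : Lev R 14 T4221.l14 := lev_step (m := 13) hR (by decide) T4221.c14 h15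
  have h13 : Lev R 13 T4221.l13 := lev_step (m := 12) hR (by decide) T4221.c13 h14
  have h12 : Lev R 12 T4221.l12 := lev_step (m := 11) hR (by decide) T4221.c12 h13
  have h11 : Lev R 11 T4221.l11 := lev_step (m := 10) hR (by decide) T4221.c11 h12
  have h10 : Lev R 10 T4221.l10 := lev_step (m := 9) hR (by decide) T4221.c10 h11
  have h9 : Lev R 9 T4221.l9 := lev_step (m := 8) hR (by decide) T4221.c9 h10
  have h8 : Lev R 8 T4221.l8 := lev_step (m := 7) hR (by decide) T4221.c8 h9
  have h7 : Lev R 7 T4221.l7 := lev_step (m := 6) hR (by decide) T4221.c7 h8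
  have h6 : Lev R 6 T4221.l6 := lev_step (m := 5) hR (by decide) T4221.c6 h7
  have h5 : Lev R 5 T4221.l5 := lev_step (m := 4) hR (by decide) T4221.c5 h6
  have h4 : Lev R 4 T4221.l4 := lev_step (m := 3) hR (by decide) T4221.c4 h5
  have h3 : Lev R 3 T4221.l3 := lev_step (m := 2) hR (by decide) T4221.c3 h4
  have h2 : Lev R 2 T4221.l2 := lev_step (m := 1) hR (by decide) T4221.c2 h3
  have h1 : Lev R 1 T4221.l1 := lev_step (m := 0) hR (by decide) T4221.c1 h2
  exact lev_one (l := []) (ll := []) h1 rfl hR.irr hab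

theorem T3321.no {V : Type} [Finite V] {R : V → V → Prop} (hR : HypF R T3321.cs) {a b : V}
    (hab : R a b) : False := by
  have h17 : Lev R 17 T3321.l17 := lev_nil _
  have h16 : Lev R 16 T3321.l16 := lev_step (m := 15) hR (by decide) T3321.c16 h17
  have h15 : Lev R 15 T3321.l15 := lev_step (m := 14) hR (by decide) T3321.c15 h16
  have h14 : Lev R 14 T3321.l14 := lev_step (m := 13) hR (by decide) T3321.c14 h15
  have h13 : Lev R 13 T3321.l13 := lev_step (m := 12) hR (by decide) T3321.c13 h14
  have h12 : Lev R 12 T3321.l12 := lev_step (m := 11) hR (by decide) T3321.c12 h13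
  have h11 : Lev R 11 T3321.l11 := lev_step (m := 10) hR (by decide) T3321.c11 h12
  have h10 : Lev R 10 T3321.l10 := lev_step (m := 9) hR (by decide) T3321.c10 h11
  have h9 : Lev R 9 T3321.l9 := lev_step (m := 8) hR (by decide) T3321.c9 h10
  have h8 : Lev R 8 T3321.l8 := lev_step (m := 7) hR (by decide) T3321.c8 h9
  have h7 : Lev R 7 T3321.l7 := lev_step (m := 6) hR (by decide) T3321.c7 h8
  have h6 : Lev R 6 T3321.l6 := lev_step (m := 5) hR (by decide) T3321.c6 h7
  have h5 : Lev R 5 T3321.l5 := lev_step (m := 4) hR (by decide) T3321.c5 h6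
  have h4 : Lev R 4 T3321.l4 := lev_step (m := 3) hR (by decide) T3321.c4 h5
  have h3 : Lev R 3 T3321.l3 := lev_step (m := 2) hR (by decide) T3321.c3 h4
  have h2 : Lev R 2 T3321.l2 := lev_step (m := 1) hR (by decide) T3321.c2 h3
  have h1 : Lev R 1 T3321.l1 := lev_step (m := 0) hR (by decide) T3321.c1 h2
  exact lev_one (l := []) (ll := []) h1 rfl hR.irr hab

theorem T3222.no {V : Type} [Finite V] {R : V → V → Prop} (hR : HypF R T3222.cs) {a b : V}
    (hab : R a b) : False := by
  have h18 : Lev R 18 T3222.l18 := lev_nil _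
  have h17 : Lev R 17 T3222.l17 := lev_step (m := 16) hR (by decide) T3222.c17 h18
  have h16 : Lev R 16 T3222.l16 := lev_step (m := 15) hR (by decide) T3222.c16 h17
  have h15 : Lev R 15 T3222.l15 := lev_step (m := 14) hR (by decide) T3222.c15 h16
  have h14 : Lev R 14 T3222.l14 := lev_step (m := 13) hR (by decide) T3222.c14 h15
  have h13 : Lev R 13 T3222.l13 := lev_step (m := 12) hR (by decide) T3222.c13 h14
  have h12 : Lev R 12 T3222.l12 := lev_step (m := 11) hR (by decide) T3222.c12 h13
  have h11 : Lev R 11 T3222.l11 := lev_step (m := 10) hR (by decide) T3222.c11 h12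
  have h10 : Lev R 10 T3222.l10 := lev_step (m := 9) hR (by decide) T3222.c10 h11
  have h9 : Lev R 9 T3222.l9 := lev_step (m := 8) hR (by decide) T3222.c9 h10
  have h8 : Lev R 8 T3222.l8 := lev_step (m := 7) hR (by decide) T3222.c8 h9
  have h7 : Lev R 7 T3222.l7 := lev_step (m := 6) hR (by decide) T3222.c7 h8
  have h6 : Lev R 6 T3222.l6 := lev_step (m := 5) hR (by decide) T3222.c6 h7
  have h5 : Lev R 5 T3222.l5 := lev_step (m := 4) hR (by decide) T3222.c5 h6
  have h4 : Lev R 4 T3222.l4 := lev_step (m := 3) hR (by decide) T3222.c4 h5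
  have h3 : Lev R 3 T3222.l3 := lev_step (m := 2) hR (by decide) T3222.c3 h4
  have h2 : Lev R 2 T3222.l2 := lev_step (m := 1) hR (by decide) T3222.c2 h3
  have h1 : Lev R 1 T3222.l1 := lev_step (m := 0) hR (by decide) T3222.c1 h2
  exact lev_one (l := []) (ll := []) h1 rfl hR.irr hab

end Pool.Agent.V8H13.LF
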