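import Pool.Agent.V8H13.LF.Def
import Mathlib.Tactic.IntervalCases
import Mathlib.Tactic.FinCases

set_option autoImplicit false
set_option linter.unusedVariables false

/-!
# The functions of the checker
-/

namespace Pool.Agent.V8H13.LF

open Pool.Agent.R140.PK (row tb bit cnt extend row_eq row_bit tb_eq bit_bit lor_bit land_bit shl_bit
  cnt_eq)

theorem xor_bit (a b x : Nat) : (Nat.xor a b).testBit x = (a.testBit x ^^ b.testBit x) :=
  Nat.testBit_xor a b x

theorem shr_bit (a k x : Nat) : (Nat.shiftRight a k).testBit x = a.testBit (k + x) := by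
  have h : Nat.shiftRight a k = a >>> k := rfl
  rw [h, Nat.testBit_shiftRight]

theorem beq_iff (a b : Nat) : Nat.beq a b = true ↔ a = b :=
  ⟨Nat.eq_of_beq_eq_true, fun h => by rw [h]; exact Nat.beq_refl b⟩

theorem ble_iff (a b : Nat) : Nat.ble a b = true ↔ a ≤ b :=
  ⟨Nat.le_of_ble_eq_true, Nat.ble_eq_true_of_le⟩

theorem blt_iff (a b : Nat) : Nat.blt a b = true ↔ a < b := ble_iff _ _

theorem land_eq_zero {a b : Nat} (h : Nat.land a b = 0) {x : Nat} (hb : b.testBit x = true) :
    a.testBit x = false := by
  have h1 := land_bit a b x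
  rw [h, Nat.zero_testBit, hb, Bool.and_true] at h1
  exact h1.symm

/-! ### unions over the bits -/

theorem lorMap_succ (g : Nat → Nat) (f r : Nat) : lorMap g (f + 1) r =
    bif Nat.beq r 0 then 0 else
      Nat.lor (g (Nat.log2 r)) (lorMap g f (Nat.xor r (bit (Nat.log2 r)))) := rfl

theorem lorMap_of (g : Nat → Nat) : ∀ f r x, (lorMap g f r).testBit x = true →
    ∃ l, r.testBit l = true ∧ (g l).testBit x = true := by
  intro f
  induction f with
  | zero =>
    intro r x h
    have : lorMap g 0 r = 0 := rfl
    rw [this, Nat.zero_testBit] at h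
    exact absurd h (by simp)
  | succ f ih =>
    intro r x h
    rw [lorMap_succ] at h
    cases h0 : Nat.beq r 0
    · rw [h0] at h
      simp only [cond_false] at h
      have hr : r ≠ 0 := by
        rintro rfl
        rw [Nat.beq_refl] at h0
        exact absurd h0 (by simp)
      rw [lor_bit, Bool.or_eq_true] at h
      rcases h with h | h
      · exact ⟨_, Nat.testBit_log2 hr, h⟩
      · obtain ⟨l, h1, h2⟩ := ih _ _ h
        refine ⟨l, ?_, h2⟩
        by_cases hl : Nat.log2 r = l
        · rw [← hl]; exact Nat.testBit_log2 hr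
        · rw [xor_bit, bit_bit] at h1
          simpa [hl] using h1
    · rw [h0] at h
      simp at h

theorem lorMap_to (g : Nat → Nat) : ∀ f r, r < 2 ^ f → ∀ l x, r.testBit l = true →
    (g l).testBit x = true → (lorMap g f r).testBit x = true := by
  intro f
  induction f with
  | zero =>
    intro r hr l x h1
    have : r = 0 := by omega
    rw [this, Nat.zero_testBit] at h1
    exact absurd h1 (by simp)
  | succ f ih =>
    intro r hr l x h1 h2
    have hr0 : r ≠ 0 := by
      rintro rfl
      rw [Nat.zero_testBit] at h1
      exact absurd h1 (by simp)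
    have h0 : Nat.beq r 0 = false := by
      rw [← Bool.not_eq_true, beq_iff]
      exact hr0
    rw [lorMap_succ, h0]
    simp only [cond_false]
    rw [lor_bit, Bool.or_eq_true]
    by_cases hl : Nat.log2 r = l
    · left; rw [hl]; exact h2
    · right
      refine ih _ ?_ l x ?_ h2
      · refine Nat.lt_pow_two_of_testBit _ fun i hi => ?_
        rw [xor_bit, bit_bit]
        by_cases h3 : Nat.log2 r = i
        · rw [h3, ← h3, Nat.testBit_log2 hr0]
          simp
        · have h4 : r.testBit i = false := by
            rcases Nat.lt_or_ge f i with h5 | h5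
            · exact Nat.testBit_lt_two_pow (lt_of_lt_of_le hr (Nat.pow_le_pow_right (by omega) h5))
            · have h6 : i = f := by omega
              subst h6
              have h7 : r.log2 < i + 1 := (Nat.log2_lt hr0).2 hr
              exact Nat.testBit_lt_two_pow ((Nat.log2_lt hr0).1 (by omega))
          simp [h3, h4]
      · rw [xor_bit, bit_bit]
        simp [hl, h1]

theorem ball_of {A i x : Nat} (h : (ball A i).testBit x = true) :
    x = i ∨ (row A i).testBit x = true ∨
      ∃ l, (row A i).testBit l = true ∧ (row A l).testBit x = true := by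
  unfold ball at h
  rw [lor_bit, lor_bit, Bool.or_eq_true, Bool.or_eq_true, bit_bit, decide_eq_true_eq] at h
  rcases h with h | h | h
  · exact Or.inl h.symm
  · exact Or.inr (Or.inl h)
  · exact Or.inr (Or.inr (lorMap_of _ _ _ _ h))

theorem ball_self (A i : Nat) : (ball A i).testBit i = true := by
  unfold ball
  rw [lor_bit, bit_bit]
  simp

theorem spread_bit {N : Nat} (hN : N < 2 ^ 32) (x : Nat) :
    (spread N).testBit x = true ↔ (x % 32 = 0 ∧ N.testBit (x / 32) = true) := by
  have hm : ∀ a, Nat.mul 32 a = 32 * a := fun _ => rfl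
  constructor
  · intro h
    obtain ⟨l, h1, h2⟩ := lorMap_of _ _ _ _ h
    rw [bit_bit, decide_eq_true_eq, hm] at h2
    subst h2
    refine ⟨by omega, ?_⟩
    have : 32 * l / 32 = l := by omega
    rw [this]; exact h1
  · rintro ⟨h1, h2⟩
    refine lorMap_to _ 32 N hN (x / 32) x h2 ?_
    rw [bit_bit, decide_eq_true_eq, hm]
    omega

/-! ### digits -/

theorem dg_lt (p i : Nat) : dg p i < 32 := Nat.mod_lt _ (Nat.succ_pos 31)

/-- the digits of the forests -/
theorem dgp_succ (p i : Nat) : Pool.Agent.R140.PK.dg p (i + 1) = Pool.Agent.R140.PK.dg (p / 32) i :=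
  Pool.Agent.R140.PK.dg_succ p i

theorem lf_spec (A m Q P : Nat) : ∀ (cs : List Bool) (p seen prev : Nat),
    lf A m Q P cs p seen prev = true →
    (∀ z, seen.testBit z = true → (Nat.lor P (bit m)).testBit z = true) ∧
    (∀ i, i < cs.length → Pool.Agent.R140.PK.dg p i ≤ m ∧
      seen.testBit (Pool.Agent.R140.PK.dg p i) = false ∧
      (Nat.lor P (bit m)).testBit (Pool.Agent.R140.PK.dg p i) = true) ∧
    (∀ i, i < cs.length → ∀ z, seen.testBit z = true →
      ((rowQ A m Q (Pool.Agent.R140.PK.dg p i)).testBit z = true ↔
        (i = 0 ∧ cs[0]? = some true ∧ prev.testBit z = true))) ∧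
    (∀ i j, i < j → j < cs.length →
      Pool.Agent.R140.PK.dg p i ≠ Pool.Agent.R140.PK.dg p j ∧
      ((rowQ A m Q (Pool.Agent.R140.PK.dg p j)).testBit (Pool.Agent.R140.PK.dg p i) = true ↔
        i + 1 = j ∧ cs[j]? = some true)) := by
  intro cs
  induction cs with
  | nil =>
    intro p seen prev h
    have h1 : Nat.beq seen (Nat.lor P (bit m)) = true := h
    rw [beq_iff] at h1
    refine ⟨fun z hz => by rw [← h1]; exact hz, fun i hi => absurd hi (by simp),
      fun i hi => absurd hi (by simp), fun i j _ hj => absurd hj (by simp)⟩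
  | cons c cs ih =>
    intro p seen prev h
    have h' : (bif Nat.beq (Nat.land (rowQ A m Q (Nat.mod p 32)) seen)
          (bif c then prev else 0) then
        bif tb seen (Nat.mod p 32) then false else
        bif Nat.ble (Nat.mod p 32) m then
          lf A m Q P cs (Nat.div p 32) (Nat.lor seen (bit (Nat.mod p 32)))
            (bit (Nat.mod p 32))
        else false
      else false) = true := h
    have hmod : Nat.mod p 32 = Pool.Agent.R140.PK.dg p 0 := (Pool.Agent.R140.PK.dg_zero p).symm
    have hdiv : Nat.div p 32 = p / 32 := rfl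
    rw [hmod, hdiv] at h'
    set d0 := Pool.Agent.R140.PK.dg p 0 with hd0
    cases h1 : Nat.beq (Nat.land (rowQ A m Q d0) seen) (bif c then prev else 0)
    · rw [h1] at h'; simp at h'
    rw [h1] at h'
    simp only [cond_true] at h'
    rw [beq_iff] at h1
    cases h2 : tb seen d0
    swap
    · rw [h2] at h'; simp at h'
    rw [h2] at h'
    simp only [cond_false] at h'
    cases h3 : Nat.ble d0 m
    · rw [h3] at h'; simp at h'
    rw [h3] at h'
    simp only [cond_true] at h'
    rw [tb_eq] at h2
    rw [ble_iff] at h3
    obtain ⟨r0, r1, r2, r3⟩ := ih _ _ _ h'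
    have hd0s : (Nat.lor seen (bit d0)).testBit d0 = true := by rw [lor_bit, bit_bit]; simp
    have hs : ∀ z, seen.testBit z = true → (Nat.lor seen (bit d0)).testBit z = true := by
      intro z hz; rw [lor_bit, hz]; rfl
    refine ⟨fun z hz => r0 z (hs z hz), ?_, ?_, ?_⟩
    · intro i hi
      cases i with
      | zero => exact ⟨h3, h2, r0 _ hd0s⟩
      | succ i =>
        rw [dgp_succ]
        obtain ⟨a1, a2, a3⟩ := r1 i (by simpa using hi)
        refine ⟨a1, ?_, a3⟩
        rw [lor_bit] at a2
        cases h4 : seen.testBit (Pool.Agent.R140.PK.dg (p / 32) i)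
        · rfl
        · rw [h4] at a2; simp at a2
    · intro i hi z hz
      cases i with
      | zero =>
        have h5 : (Nat.land (rowQ A m Q d0) seen).testBit z =
            (bif c then prev else 0).testBit z := by rw [h1]
        rw [land_bit, hz, Bool.and_true] at h5
        rw [← hd0, h5]
        cases c
        · simp
        · simp
      | succ i =>
        rw [dgp_succ, r2 i (by simpa using hi) z (hs z hz)]
        constructor
        · rintro ⟨-, -, h6⟩
          rw [bit_bit, decide_eq_true_eq] at h6
          subst h6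
          rw [h2] at hz
          exact absurd hz (by simp)
        · rintro ⟨h6, -⟩
          exact absurd h6 (by omega)
    · intro i j hij hj
      obtain ⟨j', rfl⟩ : ∃ j', j = j' + 1 := ⟨j - 1, by omega⟩
      have hj' : j' < cs.length := by simpa using hj
      cases i with
      | zero =>
        rw [dgp_succ]
        obtain ⟨a1, a2, a3⟩ := r1 j' hj'
        refine ⟨fun he => ?_, ?_⟩
        · rw [← he, hd0s] at a2
          exact absurd a2 (by simp)
        · rw [r2 j' hj' d0 hd0s, bit_bit]
          constructor
          · rintro ⟨h6, h7, -⟩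
            subst h6
            exact ⟨rfl, by simpa using h7⟩
          · rintro ⟨h6, h7⟩
            have h8 : j' = 0 := by omega
            subst h8
            exact ⟨rfl, by simpa using h7, by simp⟩
      | succ i =>
        rw [dgp_succ, dgp_succ]
        obtain ⟨a1, a2⟩ := r3 i j' (by omega) hj'
        refine ⟨a1, a2.trans ?_⟩
        constructor
        · rintro ⟨h6, h7⟩; exact ⟨by omega, by simpa using h7⟩
        · rintro ⟨h6, h7⟩; exact ⟨by omega, by simpa using h7⟩

/-! ### lists -/

theorem getD_mem {α : Type} (d : α) (l : List α) : ∀ k, getD d l k = d ∨ getD d l k ∈ l := by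
  induction l with
  | nil => intro k; exact Or.inl rfl
  | cons a l ih =>
    intro k
    cases k with
    | zero => exact Or.inr (List.mem_cons_self ..)
    | succ k =>
      rcases ih k with h | h
      · exact Or.inl h
      · exact Or.inr (List.mem_cons_of_mem _ h)

theorem allb_mem {α : Type} {p : α → Bool} {l : List α} (h : allb p l = true) :
    ∀ a ∈ l, p a = true := by
  induction l with
  | nil => intro a ha; exact absurd ha (by simp)
  | cons b l ih =>
    intro a ha
    have h' : (bif p b then allb p l else false) = true := h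
    cases h1 : p b
    · rw [h1] at h'; simp at h'
    · rw [h1] at h'
      simp only [cond_true] at h'
      rcases List.mem_cons.1 ha with rfl | ha
      · exact h1
      · exact ih h' a ha

theorem orBits_bit (l : List Nat) (x : Nat) : (orBits l).testBit x = true ↔ x ∈ l := by
  induction l with
  | nil =>
    have : orBits [] = 0 := rfl
    rw [this, Nat.zero_testBit]
    simp
  | cons a l ih =>
    have : orBits (a :: l) = Nat.lor (bit a) (orBits l) := rfl
    rw [this, lor_bit, Bool.or_eq_true, bit_bit, decide_eq_true_eq, ih, List.mem_cons]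
    constructor
    · rintro (h | h)
      · exact Or.inl h.symm
      · exact Or.inr h
    · rintro (h | h)
      · exact Or.inl h.symm
      · exact Or.inr h

/-! ### permutations -/

theorem row_lt (B k : Nat) : row B k < 2 ^ 32 := by
  rw [row_eq]
  exact Nat.mod_lt _ (by norm_num)

theorem perm_bit (B σ : Nat) : ∀ n y, (perm B σ n).testBit y = true ↔
    ∃ k l, k < n ∧ (row B k).testBit l = true ∧ y = 32 * dg σ k + dg σ l := by
  have hm : ∀ a, Nat.mul 32 a = 32 * a := fun _ => rfl
  intro n
  induction n with
  | zero =>
    intro y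
    have : perm B σ 0 = 0 := rfl
    rw [this, Nat.zero_testBit]
    constructor
    · intro h; exact absurd h (by simp)
    · rintro ⟨k, l, h, -⟩; exact absurd h (by omega)
  | succ n ih =>
    intro y
    have : perm B σ (n + 1) = Nat.lor (perm B σ n)
        (Nat.shiftLeft (lorMap (fun l => bit (dg σ l)) 32 (row B n)) (Nat.mul 32 (dg σ n))) := rfl
    rw [this, lor_bit, Bool.or_eq_true, ih, shl_bit, Bool.and_eq_true, decide_eq_true_eq, hm]
    constructor
    · rintro (⟨k, l, h1, h2, h3⟩ | ⟨h1, h2⟩)
      · exact ⟨k, l, by omega, h2, h3⟩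
      · obtain ⟨l, h3, h4⟩ := lorMap_of _ _ _ _ h2
        rw [bit_bit, decide_eq_true_eq] at h4
        exact ⟨n, l, by omega, h3, by omega⟩
    · rintro ⟨k, l, h1, h2, h3⟩
      by_cases hk : k = n
      · subst hk
        right
        refine ⟨by omega, ?_⟩
        refine lorMap_to _ 32 _ (row_lt _ _) l _ h2 ?_
        rw [bit_bit, decide_eq_true_eq]
        omega
      · exact Or.inl ⟨k, l, by omega, h2, h3⟩

theorem inj_spec (σ M : Nat) : ∀ n seen, inj σ M n seen = true →
    (∀ i, i < n → dg σ i < M ∧ seen.testBit (dg σ i) = false) ∧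
    ∀ i j, i < j → j < n → dg σ i ≠ dg σ j := by
  intro n
  induction n with
  | zero => intro seen _; exact ⟨fun i hi => absurd hi (by omega), fun i j _ hj => absurd hj (by omega)⟩
  | succ n ih =>
    intro seen h
    have h' : (bif tb seen (dg σ n) then false else
      bif Nat.blt (dg σ n) M then inj σ M n (Nat.lor seen (bit (dg σ n))) else false) = true := h
    cases h1 : tb seen (dg σ n)
    swap
    · rw [h1] at h'; simp at h'
    rw [h1] at h'
    simp only [cond_false] at h'
    cases h2 : Nat.blt (dg σ n) M
    · rw [h2] at h'; simp at h'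
    rw [h2] at h'
    simp only [cond_true] at h'
    rw [tb_eq] at h1
    rw [blt_iff] at h2
    obtain ⟨r1, r2⟩ := ih _ h'
    refine ⟨fun i hi => ?_, fun i j hij hj => ?_⟩
    · by_cases hin : i = n
      · subst hin; exact ⟨h2, h1⟩
      · obtain ⟨a1, a2⟩ := r1 i (by omega)
        refine ⟨a1, ?_⟩
        rw [lor_bit] at a2
        cases h4 : seen.testBit (dg σ i)
        · rfl
        · rw [h4] at a2; simp at a2
    · by_cases hjn : j = n
      · subst hjn
        obtain ⟨a1, a2⟩ := r1 i hij
        intro he
        rw [lor_bit, bit_bit, he] at a2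
        simp at a2
      · exact r2 i j hij (by omega)

theorem oddc_eq (A m : Nat) : ∀ k, oddc A m k =
    ((List.range k).filter (fun i => decide (cnt (row A i) m % 2 = 1))).length := by
  intro k
  induction k with
  | zero => rfl
  | succ k ih =>
    have h : oddc A m (k + 1) = cnt (row A k) m % 2 + oddc A m k := rfl
    rw [h, ih, List.range_succ, List.filter_append, List.length_append, Nat.add_comm]
    congr 1
    rcases Nat.mod_two_eq_zero_or_one (cnt (row A k) m) with h3 | h3
    · simp [h3]
    · simp [h3]

end Pool.Agent.V8H13.LF
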