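import Pool.Agent.V8H13.LF.DataT4221

set_option autoImplicit false

namespace Pool.Agent.V8H13.LF.T4221

open Pool.Agent.V8H13.LF

theorem c1_0 : allb (okState cs 1 (tblOf l2)) l1_0 = true := by decide +kernel

theorem c1 : OkL cs 1 l1 l2 :=
  fa_cons c1_0 fa_nil

theorem c2_0 : allb (okState cs 2 (tblOf l3)) l2_0 = true := by decide +kernel

theorem c2 : OkL cs 2 l2 l3 :=
  fa_cons c2_0 fa_nil

theorem c3_0 : allb (okState cs 3 (tblOf l4)) l3_0 = true := by decide +kernel

theorem c3 : OkL cs 3 l3 l4 :=
  fa_cons c3_0 fa_nil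

theorem c4_0 : allb (okState cs 4 (tblOf l5)) l4_0 = true := by decide +kernel

theorem c4 : OkL cs 4 l4 l5 :=
  fa_cons c4_0 fa_nil

theorem c5_0 : allb (okState cs 5 (tblOf l6)) l5_0 = true := by decide +kernel

theorem c5 : OkL cs 5 l5 l6 :=
  fa_cons c5_0 fa_nil

theorem c6_0 : allb (okState cs 6 (tblOf l7)) l6_0 = true := by decide +kernel

theorem c6 : OkL cs 6 l6 l7 :=
  fa_cons c6_0 fa_nil

theorem c7_0 : allb (okState cs 7 (tblOf l8)) l7_0 = true := by decide +kernel

theorem c7 : OkL cs 7 l7 l8 :=
  fa_cons c7_0 fa_nil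

theorem c8_0 : allb (okState cs 8 (tblOf l9)) l8_0 = true := by decide +kernel

theorem c8 : OkL cs 8 l8 l9 :=
  fa_cons c8_0 fa_nil

theorem c9_0 : allb (okState cs 9 (tblOf l10)) l9_0 = true := by decide +kernel

theorem c9 : OkL cs 9 l9 l10 :=
  fa_cons c9_0 fa_nil

theorem c10_0 : allb (okState cs 10 (tblOf l11)) l10_0 = true := by decide +kernel

theorem c10 : OkL cs 10 l10 l11 :=
  fa_cons c10_0 fa_nil

theorem c11_0 : allb (okState cs 11 (tblOf l12)) l11_0 = true := by decide +kernel

theorem c11_1 : allb (okState cs 11 (tblOf l12)) l11_1 = true := by decide +kernel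

theorem c11_2 : allb (okState cs 11 (tblOf l12)) l11_2 = true := by decide +kernel

theorem c11 : OkL cs 11 l11 l12 :=
  fa_cons c11_0 (fa_cons c11_1 (fa_cons c11_2 fa_nil))

theorem c12_0 : allb (okState cs 12 (tblOf l13)) l12_0 = true := by decide +kernel

theorem c12_1 : allb (okState cs 12 (tblOf l13)) l12_1 = true := by decide +kernel

theorem c12_2 : allb (okState cs 12 (tblOf l13)) l12_2 = true := by decide +kernel

theorem c12_3 : allb (okState cs 12 (tblOf l13)) l12_3 = true := by decide +kernel

theorem c12_4 : allb (okState cs 12 (tblOf l13)) l12_4 = true := by decide +kernel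

theorem c12_5 : allb (okState cs 12 (tblOf l13)) l12_5 = true := by decide +kernel

theorem c12_6 : allb (okState cs 12 (tblOf l13)) l12_6 = true := by decide +kernel

theorem c12 : OkL cs 12 l12 l13 :=
  fa_cons c12_0 (fa_cons c12_1 (fa_cons c12_2 (fa_cons c12_3 (fa_cons c12_4 (fa_cons c12_5 (fa_cons c12_6 fa_nil))))))

theorem c13_0 : allb (okState cs 13 (tblOf l14)) l13_0 = true := by decide +kernel

theorem c13_1 : allb (okState cs 13 (tblOf l14)) l13_1 = true := by decide +kernel

theorem c13_2 : allb (okState cs 13 (tblOf l14)) l13_2 = true := by decide +kernel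

theorem c13_3 : allb (okState cs 13 (tblOf l14)) l13_3 = true := by decide +kernel

theorem c13_4 : allb (okState cs 13 (tblOf l14)) l13_4 = true := by decide +kernel

theorem c13_5 : allb (okState cs 13 (tblOf l14)) l13_5 = true := by decide +kernel

theorem c13_6 : allb (okState cs 13 (tblOf l14)) l13_6 = true := by decide +kernel

theorem c13_7 : allb (okState cs 13 (tblOf l14)) l13_7 = true := by decide +kernel

theorem c13_8 : allb (okState cs 13 (tblOf l14)) l13_8 = true := by decide +kernel

theorem c13_9 : allb (okState cs 13 (tblOf l14)) l13_9 = true := by decide +kernel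

theorem c13_10 : allb (okState cs 13 (tblOf l14)) l13_10 = true := by decide +kernel

theorem c13_11 : allb (okState cs 13 (tblOf l14)) l13_11 = true := by decide +kernel

theorem c13_12 : allb (okState cs 13 (tblOf l14)) l13_12 = true := by decide +kernel

theorem c13_13 : allb (okState cs 13 (tblOf l14)) l13_13 = true := by decide +kernel

theorem c13 : OkL cs 13 l13 l14 :=
  fa_cons c13_0 (fa_cons c13_1 (fa_cons c13_2 (fa_cons c13_3 (fa_cons c13_4 (fa_cons c13_5 (fa_cons c13_6 (fa_cons c13_7 (fa_cons c13_8 (fa_cons c13_9 (fa_cons c13_10 (fa_cons c13_11 (fa_cons c13_12 (fa_cons c13_13 fa_nil)))))))))))))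

theorem c14_0 : allb (okState cs 14 (tblOf l15)) l14_0 = true := by decide +kernel

theorem c14_1 : allb (okState cs 14 (tblOf l15)) l14_1 = true := by decide +kernel

theorem c14_2 : allb (okState cs 14 (tblOf l15)) l14_2 = true := by decide +kernel

theorem c14_3 : allb (okState cs 14 (tblOf l15)) l14_3 = true := by decide +kernel

theorem c14_4 : allb (okState cs 14 (tblOf l15)) l14_4 = true := by decide +kernel

theorem c14_5 : allb (okState cs 14 (tblOf l15)) l14_5 = true := by decide +kernel

theorem c14 : OkL cs 14 l14 l15 :=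
  fa_cons c14_0 (fa_cons c14_1 (fa_cons c14_2 (fa_cons c14_3 (fa_cons c14_4 (fa_cons c14_5 fa_nil)))))

theorem c15_0 : allb (okState cs 15 (tblOf l16)) l15_0 = true := by decide +kernel

theorem c15 : OkL cs 15 l15 l16 :=
  fa_cons c15_0 fa_nil

end Pool.Agent.V8H13.LF.T4221
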