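import Pool.Agent.R140.PK.Check

set_option autoImplicit false
set_option linter.unusedVariables false

/-!
# The checker for searches up to isomorphism

A state is a graph on `0, ..., m - 1`, given by its adjacency matrix: bit `32 * i + j` of a number.
For every state the certificate has a vertex `v` with at most two neighbours (or `v = m`), an order of
the vertices which are not close to `v`, a list of patterns (partial copies of the forbidden linear
forest which need a new vertex with given neighbours), and a stream of tokens for the decision tree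
for the neighbours of a new vertex adjacent to `v`; the leaves are patterns, Petersen subgraphs or
states of the next level (with an isomorphism).
-/

namespace Pool.Agent.V8H13.LF

open Pool.Agent.R140.PK (row tb bit cnt extend)

/-- union of `g j` for the bits `j` of `r` -/
noncomputable def lorMap (g : Nat → Nat) (f : Nat) : Nat → Nat :=
  Nat.rec (fun _ => nat_lit 0)
    (fun _ ih r => bif Nat.beq r (nat_lit 0) then nat_lit 0 else
      Nat.lor (g (Nat.log2 r)) (ih (Nat.xor r (bit (Nat.log2 r))))) f

/-- a set of vertices close to `i` -/
noncomputable def ball (A i : Nat) : Nat :=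
  Nat.lor (bit i) (Nat.lor (row A i) (lorMap (row A) (nat_lit 32) (row A i)))

/-- the row with a new vertex `m` with the neighbours `Q` -/
noncomputable def rowQ (A m Q x : Nat) : Nat :=
  bif Nat.beq x m then Q else Nat.lor (row A x) (bif tb Q x then bit m else nat_lit 0)

/-- the digits of `p` are a copy of the linear forest; at the end `seen` is `P` and `m` -/
noncomputable def lf (A m Q P : Nat) (cs : List Bool) : Nat → Nat → Nat → Bool :=
  List.rec (fun _ seen _ => Nat.beq seen (Nat.lor P (bit m)))
    (fun c _ ih p seen prev =>
      bif Nat.beq (Nat.land (rowQ A m Q (Nat.mod p (nat_lit 32))) seen)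
          (bif c then prev else nat_lit 0) then
        bif tb seen (Nat.mod p (nat_lit 32)) then false else
        bif Nat.ble (Nat.mod p (nat_lit 32)) m then
          ih (Nat.div p (nat_lit 32)) (Nat.lor seen (bit (Nat.mod p (nat_lit 32))))
            (bit (Nat.mod p (nat_lit 32)))
        else false
      else false) cs

/-- the pattern `c = P + 2 ^ 32 Q + 2 ^ 64 p` -/
noncomputable def okPat (A m : Nat) (cs : List Bool) (c : Nat) : Bool :=
  lf A m (Nat.mod (Nat.shiftRight c (nat_lit 32)) (nat_lit 4294967296))
    (Nat.mod c (nat_lit 4294967296)) cs (Nat.shiftRight c (nat_lit 64)) (nat_lit 0) (nat_lit 0)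

/-- all elements of a list -/
noncomputable def allb {α : Type} (p : α → Bool) (l : List α) : Bool :=
  List.rec true (fun a _ ih => bif p a then ih else false) l

/-- element of a list -/
noncomputable def getD {α : Type} (d : α) (l : List α) : Nat → α :=
  List.rec (fun _ => d) (fun a _ ih k => Nat.rec a (fun k' _ => ih k') k) l

/-- union of the bits -/
noncomputable def orBits (l : List Nat) : Nat :=
  List.rec (nat_lit 0) (fun i _ ih => Nat.lor (bit i) ih) l

/-- the row bits of the new vertex -/
noncomputable def spread (N : Nat) : Nat := lorMap (fun j => bit (Nat.mul (nat_lit 32) j)) (nat_lit 32) N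

/-- the extended matrix -/
noncomputable def ext (A m N : Nat) : Nat := extend A m N (spread N)

/-- digit -/
def dg (p i : Nat) : Nat := Nat.mod (Nat.shiftRight p (Nat.mul (nat_lit 5) i)) (nat_lit 32)

/-- the matrix `B` on `0, ..., n - 1` moved by the map `σ` -/
noncomputable def perm (B σ : Nat) (n : Nat) : Nat :=
  Nat.rec (nat_lit 0) (fun k ih => Nat.lor ih
    (Nat.shiftLeft (lorMap (fun l => bit (dg σ l)) (nat_lit 32) (row B k))
      (Nat.mul (nat_lit 32) (dg σ k)))) n

/-- the first `n` digits are different and less than `M` -/
noncomputable def inj (σ M : Nat) (n : Nat) : Nat → Bool :=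
  Nat.rec (fun _ => true) (fun k ih seen =>
    bif tb seen (dg σ k) then false else
    bif Nat.blt (dg σ k) M then ih (Nat.lor seen (bit (dg σ k))) else false) n

/-- the digits of `p` are the vertices of a Petersen graph -/
noncomputable def pet (B p : Nat) : Bool :=
  bif tb (row B (dg p 0)) (dg p 1) then bif tb (row B (dg p 1)) (dg p 2) then
  bif tb (row B (dg p 2)) (dg p 3) then bif tb (row B (dg p 3)) (dg p 4) then
  bif tb (row B (dg p 4)) (dg p 0) then bif tb (row B (dg p 0)) (dg p 5) then
  bif tb (row B (dg p 1)) (dg p 6) then bif tb (row B (dg p 2)) (dg p 7) then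
  bif tb (row B (dg p 3)) (dg p 8) then bif tb (row B (dg p 4)) (dg p 9) then
  bif tb (row B (dg p 5)) (dg p 7) then bif tb (row B (dg p 7)) (dg p 9) then
  bif tb (row B (dg p 9)) (dg p 6) then bif tb (row B (dg p 6)) (dg p 8) then
  tb (row B (dg p 8)) (dg p 5)
  else false else false else false else false else false else false else false
  else false else false else false else false else false else false else false

/-- the states: matrix, vertex, tokens, order, patterns -/
abbrev State := Nat × Nat × Nat × List Nat × List Nat

/-- the leaf for the set `N` -/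
noncomputable def leaf (tbl : Nat → Nat) (A m : Nat) (pats : List Nat) (N s : Nat) : Nat :=
  bif Nat.beq (Nat.mod s (nat_lit 64)) (nat_lit 61) then
    bif Nat.beq (ext A m N)
      (tbl (Nat.mod (Nat.shiftRight s (nat_lit 6)) (nat_lit 32768))) then
      Nat.shiftRight s (nat_lit 21) else nat_lit 0
  else bif Nat.beq (Nat.mod s (nat_lit 64)) (nat_lit 63) then
    bif inj (Nat.shiftRight s (nat_lit 21)) (Nat.succ m) (Nat.succ m) (nat_lit 0) then
      bif Nat.beq (ext A m N)
        (perm (tbl (Nat.mod (Nat.shiftRight s (nat_lit 6)) (nat_lit 32768)))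
          (Nat.shiftRight s (nat_lit 21)) (Nat.succ m)) then
        Nat.shiftRight s (Nat.add (nat_lit 21) (Nat.mul (nat_lit 5) (Nat.succ m)))
      else nat_lit 0
    else nat_lit 0
  else bif Nat.beq (Nat.mod s (nat_lit 64)) (nat_lit 60) then
    bif inj (Nat.shiftRight s (nat_lit 6)) (Nat.succ m) (nat_lit 10) (nat_lit 0) then
      bif pet (ext A m N) (Nat.shiftRight s (nat_lit 6)) then Nat.shiftRight s (nat_lit 56)
      else nat_lit 0
    else nat_lit 0
  else bif Nat.beq (Nat.mod s (nat_lit 64)) (nat_lit 62) then
    bif Nat.beq N (nat_lit 0) then Nat.shiftRight s (nat_lit 6) else nat_lit 0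
  else nat_lit 0

/-- the pattern applies -/
noncomputable def usePat (c U N s : Nat) : Nat :=
  bif Nat.beq (Nat.land c U) (nat_lit 0) then
    bif Nat.beq (Nat.land c N) (Nat.mod (Nat.shiftRight c (nat_lit 32)) (nat_lit 4294967296)) then
      bif Nat.beq c (nat_lit 0) then nat_lit 0 else Nat.shiftRight s (nat_lit 6)
    else nat_lit 0
  else nat_lit 0

/-- evaluation of a number -/
noncomputable def force {α : Type} (z : α) (k : Nat → α) (n : Nat) : α :=
  Nat.rec z (fun n' _ => k (Nat.succ n')) n

/-- the decision tree -/
noncomputable def run (lf : Nat → Nat → Nat) (A : Nat) (pats : List Nat) (ord : List Nat) :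
    Nat → Nat → Nat → Nat :=
  List.rec
    (fun U N s => bif Nat.beq U (nat_lit 0) then
        bif Nat.blt (Nat.mod s (nat_lit 64)) (nat_lit 60) then
          usePat (getD (nat_lit 0) pats (Nat.pred (Nat.mod s (nat_lit 64)))) U N s
        else lf N s
      else nat_lit 0)
    (fun i _ ih U N s =>
      bif tb U i then
        bif Nat.beq (Nat.mod s (nat_lit 64)) (nat_lit 0) then
          force (nat_lit 0) (fun s' => ih (Nat.xor U (bit i)) N s')
            (ih (Nat.xor U (Nat.land U (ball A i))) (Nat.lor N (bit i))
              (Nat.shiftRight s (nat_lit 6)))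
        else usePat (getD (nat_lit 0) pats (Nat.pred (Nat.mod s (nat_lit 64)))) U N s
      else ih U N s) ord

/-- number of the vertices of odd degree -/
noncomputable def oddc (A m : Nat) (k : Nat) : Nat :=
  Nat.rec (nat_lit 0) (fun i ih => Nat.add (Nat.mod (cnt (row A i) m) (nat_lit 2)) ih) k

/-- the rows are less than `2 ^ m` -/
noncomputable def wfr (A m : Nat) (k : Nat) : Bool :=
  Nat.rec true (fun i ih => bif Nat.blt (row A i) (bit m) then ih else false) k

/-- no bits outside of the matrix -/
noncomputable def wf (A m : Nat) : Bool :=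
  bif Nat.blt A (bit (Nat.mul (nat_lit 32) m)) then wfr A m m else false

/-- the check of a state -/
noncomputable def okState (cs : List Bool) (m : Nat) (tbl : Nat → Nat) (st : State) : Bool :=
  bif wf st.1 m then
  bif allb (okPat st.1 m cs) st.2.2.2.2 then
    bif Nat.beq st.2.1 m then
      bif Nat.beq (orBits st.2.2.2.1) (Nat.pred (bit m)) then
        bif Nat.ble (oddc st.1 m m) (nat_lit 17) then
          Nat.beq (run (leaf tbl st.1 m st.2.2.2.2) st.1 st.2.2.2.2 st.2.2.2.1
            (Nat.pred (bit m)) (nat_lit 0) st.2.2.1) (nat_lit 1)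
        else false
      else false
    else bif Nat.blt st.2.1 m then
      bif Nat.ble (cnt (row st.1 st.2.1) m) (nat_lit 2) then
        bif Nat.beq (Nat.lor (orBits st.2.2.2.1) (ball st.1 st.2.1)) (Nat.pred (bit m)) then
          bif tb (orBits st.2.2.2.1) st.2.1 then false else
          Nat.beq (run (leaf tbl st.1 m st.2.2.2.2) st.1 st.2.2.2.2 st.2.2.2.1
            (orBits st.2.2.2.1) (bit st.2.1) st.2.2.1) (nat_lit 1)
        else false
      else false
    else false
  else false
  else false

/-- the matrix of a state in a nested list -/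
noncomputable def tblOf (l : List (List State)) (k : Nat) : Nat :=
  (getD ((nat_lit 0, nat_lit 0, nat_lit 0, [], []) : State)
    (getD [] l (Nat.shiftRight k (nat_lit 5))) (Nat.mod k (nat_lit 32))).1

/-- the check of a level, in parts -/
def OkL (cs : List Bool) (m : Nat) (l l' : List (List State)) : Prop :=
  ∀ ll ∈ l, allb (okState cs m (tblOf l')) ll = true

theorem fa_nil {α : Type} {p : α → Prop} : ∀ x ∈ ([] : List α), p x := fun _ h => nomatch h

theorem fa_cons {α : Type} {p : α → Prop} {a : α} {l : List α} (h : p a) (h' : ∀ x ∈ l, p x) :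
    ∀ x ∈ a :: l, p x := List.forall_mem_cons.2 ⟨h, h'⟩

end Pool.Agent.V8H13.LF
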