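import Pool.Agent.V8H13.LF.Lift

set_option autoImplicit false
set_option linter.unusedSectionVars false
set_option linter.unusedVariables false

/-!
# The hypotheses of the search hold for minimal contractions
-/

namespace Pool.Agent.V8H13.LF

open Finset Relation Pool.Agent.TH362.TF Pool.Agent.TH362.TF.Four Pool.Agent.R890.FF
  Pool.Agent.R140.PK

/-- the vertex of the Petersen graph for a pair -/
def pidx (P : Finset (Fin 5)) : ℕ :=
  if P = {0, 1} then 0 else if P = {2, 3} then 1 else if P = {4, 0} then 2 else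
  if P = {1, 2} then 3 else if P = {3, 4} then 4 else if P = {2, 4} then 5 else
  if P = {4, 1} then 6 else if P = {1, 3} then 7 else if P = {3, 0} then 8 else 9

theorem pidx_lt (P : Finset (Fin 5)) : pidx P < 10 := by
  unfold pidx
  split_ifs <;> omega

theorem pidx_inj : ∀ P Q : Finset (Fin 5), P.card = 2 → Q.card = 2 → pidx P = pidx Q → P = Q := by
  decide +kernel

/-- the edges of the Petersen graph -/
def pedges : List (ℕ × ℕ) := [(0, 1), (1, 2), (2, 3), (3, 4), (4, 0), (0, 5), (1, 6), (2, 7), (3, 8),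
  (4, 9), (5, 7), (7, 9), (9, 6), (6, 8), (8, 5)]

theorem pidx_adj : ∀ P Q : Finset (Fin 5), P.card = 2 → Q.card = 2 → Disjoint P Q →
    (pidx P, pidx Q) ∈ pedges ∨ (pidx Q, pidx P) ∈ pedges := by
  decide +kernel

variable {V E : Type} [Fintype V] [DecidableEq V] [Fintype E] [DecidableEq E]

theorem connected_fibre {s t : E → V} {π : V → V} (hπ : FC s t univ π) {v : V}
    (hv : ∃ x, π x = v) : TH362.Multi.ConnectedSet s t {x | π x = v} := by
  refine ⟨hv, ?_⟩
  intro x hx y hy
  have hx' : π x = v := hx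
  have hy' : π y = v := hy
  have h1 := hπ x y (hx'.trans hy'.symm)
  unfold TH362.Multi.Linked
  clear hy hy'
  induction h1 with
  | refl => exact ReflTransGen.refl
  | tail h0 h2 ih =>
    rename_i a b
    obtain ⟨⟨e, -, he⟩, ha, hb⟩ := h2
    have ha' : π a = v := ha.trans hx'
    have hb' : π b = v := hb.trans hx'
    refine ih.tail ⟨e, ?_, he⟩
    rcases he with ⟨h4, h5⟩ | ⟨h4, h5⟩
    · exact ⟨by show π (s e) = v; rw [h4]; exact ha', by show π (t e) = v; rw [h5]; exact hb'⟩
    · exact ⟨by show π (s e) = v; rw [h4]; exact hb', by show π (t e) = v; rw [h5]; exact ha'⟩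

theorem image_of_nb {s t : E → V} {S : Finset E} {π : V → V} {a b : V}
    (h : Nb (fun e => π (s e)) (fun e => π (t e)) S a b) : ∃ x, π x = a := by
  obtain ⟨-, e, -, he⟩ := h
  rcases he with ⟨h4, h5⟩ | ⟨h4, h5⟩
  · exact ⟨_, h4⟩
  · exact ⟨_, h5⟩

/-- a Petersen subgraph of the contraction is a Petersen minor -/
theorem minor_of_sub {s t : E → V} {π : V → V} (hπ : FC s t univ π) (p : ℕ → V)
    (hp : ∀ i j, i < j → j < 10 → p i ≠ p j)
    (he : ∀ x ∈ pedges, Nb (fun e => π (s e)) (fun e => π (t e)) univ (p x.1) (p x.2)) :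
    ∃ B : {p : Finset (Fin 5) // p.card = 2} → Set V,
      (∀ i, TH362.Multi.ConnectedSet s t (B i)) ∧
      (∀ i j, i ≠ j → Disjoint (B i) (B j)) ∧
      ∀ i j, Disjoint i.1 j.1 → ∃ e, (s e ∈ B i ∧ t e ∈ B j) ∨ (s e ∈ B j ∧ t e ∈ B i) := by
  have hall : ∀ k, k < 10 → ∃ x ∈ pedges, x.1 = k ∨ x.2 = k := by decide
  have himg : ∀ k, k < 10 → ∃ x, π x = p k := by
    intro k hk
    obtain ⟨x, hx, h⟩ := hall k hk
    have h1 := he x hx
    rcases h with h | h
    · rw [← h]; exact image_of_nb h1
    · rw [← h]; exact image_of_nb (nb_comm h1)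
  have hedge : ∀ x ∈ pedges, ∃ e, (s e ∈ {z | π z = p x.1} ∧ t e ∈ {z | π z = p x.2}) ∨
      (s e ∈ {z | π z = p x.2} ∧ t e ∈ {z | π z = p x.1}) := by
    intro x hx
    obtain ⟨-, e, -, h⟩ := he x hx
    exact ⟨e, h⟩
  refine ⟨fun i => {z | π z = p (pidx i.1)}, ?_, ?_, ?_⟩
  · intro i
    exact connected_fibre hπ (himg _ (pidx_lt _))
  · intro i j hij
    rw [Set.disjoint_left]
    intro z hz hz'
    have h1 : π z = p (pidx i.1) := hz
    have h2 : π z = p (pidx j.1) := hz'
    have h3 : p (pidx i.1) = p (pidx j.1) := h1.symm.trans h2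
    have h4 : pidx i.1 ≠ pidx j.1 := fun h => hij (Subtype.ext (pidx_inj _ _ i.2 j.2 h))
    rcases lt_or_gt_of_ne h4 with h5 | h5
    · exact hp _ _ h5 (pidx_lt _) h3
    · exact hp _ _ h5 (pidx_lt _) h3.symm
  · intro i j hij
    rcases pidx_adj _ _ i.2 j.2 hij with h | h
    · exact hedge _ h
    · obtain ⟨e, he⟩ := hedge _ h
      exact ⟨e, he.symm⟩

/-- a contraction of a component to the Petersen graph gives a Petersen minor -/
theorem minor_of_contracts {s t : E → V} (h : TH362.Multi.ContractsToPetersen s t) :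
    ∃ B : {p : Finset (Fin 5) // p.card = 2} → Set V,
      (∀ i, TH362.Multi.ConnectedSet s t (B i)) ∧
      (∀ i j, i ≠ j → Disjoint (B i) (B j)) ∧
      ∀ i j, Disjoint i.1 j.1 → ∃ e, (s e ∈ B i ∧ t e ∈ B j) ∨ (s e ∈ B j ∧ t e ∈ B i) := by
  obtain ⟨B, h1, h2, h3, -⟩ := h
  exact ⟨B, h1, h2, fun i j hij => (h3 i j hij).exists⟩

theorem hypF_of_Mc {s t : E → V} {π : V → V} (hπ : FC s t univ π)
    (h : Mc (fun e => π (s e)) (fun e => π (t e)) univ) (cs : List Bool)
    (hF : ¬ ∃ p : ℕ → V, ∀ i j, i < j → j < cs.length → p i ≠ p j ∧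
      (Nb s t univ (p i) (p j) ↔ i + 1 = j ∧ cs[j]? = some true))
    (hP : ¬ ∃ B : {p : Finset (Fin 5) // p.card = 2} → Set V,
      (∀ i, TH362.Multi.ConnectedSet s t (B i)) ∧
      (∀ i j, i ≠ j → Disjoint (B i) (B j)) ∧
      ∀ i j, Disjoint i.1 j.1 → ∃ e, (s e ∈ B i ∧ t e ∈ B j) ∨ (s e ∈ B j ∧ t e ∈ B i)) :
    HypF (Nb (fun e => π (s e)) (fun e => π (t e)) univ) cs := by
  classical
  refine ⟨fun a b => nb_comm, fun a ha => ha.1 rfl, fun a b c => h.tri,
    fun a b c d => h.four, ?_, ?_, ?_, ?_⟩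
  · intro a b hab m hm
    have h1 : 0 < (univ.filter (Nb (fun e => π (s e)) (fun e => π (t e)) univ a)).card :=
      card_pos.2 ⟨b, mem_filter.2 ⟨mem_univ _, hab⟩⟩
    have h2 := h.nb_ne_one a
    have h3 := h.nb_ne_two a
    have h4 : m.toFinset.card <
        (univ.filter (Nb (fun e => π (s e)) (fun e => π (t e)) univ a)).card := by
      have := List.toFinset_card_le m
      omega
    obtain ⟨w, hw, hw'⟩ := Finset.exists_mem_notMem_of_card_lt_card h4
    exact ⟨w, (mem_filter.1 hw).2, fun h => hw' (List.mem_toFinset.2 h)⟩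
  · intro q hq hq'
    exact hF (lift_forest hπ (n := cs.length) (fun j => cs[j]? = some true) q
      (fun i hi => by obtain ⟨y, hy⟩ := hq i hi; exact image_of_nb hy) hq')
  · intro p hp hp'
    refine hP (minor_of_sub hπ p hp ?_)
    obtain ⟨a1, a2, a3, a4, a5, a6, a7, a8, a9, a10, a11, a12, a13, a14, a15⟩ := hp'
    intro x hx
    simp only [pedges, List.mem_cons, List.not_mem_nil, or_false] at hx
    rcases hx with rfl | rfl | rfl | rfl | rfl | rfl | rfl | rfl | rfl | rfl | rfl | rfl | rfl |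
      rfl | rfl <;> assumption
  · intro T hT1 hT2 hT3 hT4
    obtain ⟨x0, hx0⟩ := List.exists_mem_of_ne_nil T hT2
    obtain ⟨y0, hy0⟩ := hT3 x0 hx0
    have hsub : odd (fun e => π (s e)) (fun e => π (t e)) univ ⊆
        (T.filter (fun x => decide ((T.filter (fun y => decide
          (Nb (fun e => π (s e)) (fun e => π (t e)) univ x y))).length % 2 = 1))).toFinset := by
      intro y hy
      rw [h.odd_nb y] at hy
      have h1 : 0 < (univ.filter (Nb (fun e => π (s e)) (fun e => π (t e)) univ y)).card := by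
        omega
      obtain ⟨z, hz⟩ := card_pos.1 h1
      have hz' := (mem_filter.1 hz).2
      have h2 := h.one_comp hy0 hz'
      rw [mem_comp] at h2
      have h3 : y ∈ T := by
        clear hz hz' hy h1
        induction h2 with
        | refl => exact hx0
        | tail hpq0 h2 ih =>
          rename_i p q
          by_cases hpq : q = p
          · rw [hpq]; exact ih
          · exact hT4 _ ih _ ⟨hpq, h2⟩
      rw [List.mem_toFinset, List.mem_filter, decide_eq_true_eq]
      refine ⟨h3, ?_⟩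
      have h4 : (univ.filter (Nb (fun e => π (s e)) (fun e => π (t e)) univ y)).card =
          (T.filter (fun z => decide
            (Nb (fun e => π (s e)) (fun e => π (t e)) univ y z))).length := by
        rw [← List.toFinset_card_of_nodup (hT1.filter _)]
        congr 1
        ext z
        simp only [mem_filter, mem_univ, true_and, List.mem_toFinset, List.mem_filter,
          decide_eq_true_eq]
        exact ⟨fun h5 => ⟨hT4 y h3 z h5, h5⟩, fun h5 => h5.2⟩
      rw [← h4]
      exact hy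
    have h5 := card_le_card hsub
    have h6 := List.toFinset_card_le (T.filter (fun x => decide ((T.filter (fun y => decide
          (Nb (fun e => π (s e)) (fun e => π (t e)) univ x y))).length % 2 = 1)))
    have h7 := h.odd18
    exact h7.trans (h5.trans h6)

end Pool.Agent.V8H13.LF
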