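import Pool.Agent.R140.PK.Lift
import Pool.Agent.TH362.TF.Multi
import Pool.Agent.V8H13.LF.Sound2

set_option autoImplicit false
set_option linter.unusedSectionVars false
set_option linter.unusedVariables false

/-!
# Induced linear forests of contractions can be lifted, and the hypotheses of the search
-/

namespace Pool.Agent.V8H13.LF

open Finset Relation Pool.Agent.TH362.TF Pool.Agent.TH362.TF.Four Pool.Agent.R890.FF
  Pool.Agent.R140.PK

variable {V E : Type} [Fintype V] [DecidableEq V] [DecidableEq E]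

/-- induced paths of a contraction can be lifted -/
theorem lift_pathU {s t : E → V} {S : Finset E} {π : V → V} (hπ : FC s t S π) {K : ℕ} (hK : 2 ≤ K)
    (q : Fin K → V) (hq : Function.Injective q)
    (hq' : ∀ i j : Fin K, i < j →
      (Nb (fun e => π (s e)) (fun e => π (t e)) S (q i) (q j) ↔ i.val + 1 = j.val)) :
    ∃ p : Fin K → V, (∀ i, ∃ j, π (p i) = q j) ∧ Function.Injective p ∧
      ∀ i j : Fin K, i < j → (Nb s t S (p i) (p j) ↔ i.val + 1 = j.val) := by
  classical
  set U : V → Prop := fun x => ∃ i, π x = q i with hU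
  let Γ : SimpleGraph V :=
    { Adj := fun u w => Nb s t S u w ∧ U u ∧ U w
      symm := ⟨fun u w h => ⟨nb_comm h.1, h.2.2, h.2.1⟩⟩
      loopless := ⟨fun u h => h.1.1 rfl⟩ }
  have hreach : ∀ (P : V → Prop), (∀ x, P x → U x) → ∀ u w, ReflTransGen (St s t S P) u w →
      Γ.Reachable u w := by
    intro P hP u w huw
    induction huw with
    | refl => exact SimpleGraph.Reachable.refl _
    | tail hab0 h2 ih =>
      rename_i a b
      obtain ⟨h3, h4, h5⟩ := h2
      by_cases hab : b = a
      · rw [hab]; exact ih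
      · have : Γ.Adj a b := ⟨⟨hab, h3⟩, hP _ h4, hP _ h5⟩
        exact ih.trans this.reachable
  have hedge : ∀ i : ℕ, ∀ hi : i + 1 < K, ∃ a b, π a = q ⟨i, by omega⟩ ∧ π b = q ⟨i + 1, hi⟩ ∧
      Γ.Adj a b := by
    intro i hi
    have h1 := (hq' ⟨i, by omega⟩ ⟨i + 1, hi⟩ (by simp)).2 rfl
    obtain ⟨hne, e, he, hE⟩ := h1
    rcases hE with ⟨h4, h5⟩ | ⟨h4, h5⟩
    · refine ⟨s e, t e, h4, h5, ⟨?_, e, he, Or.inl ⟨rfl, rfl⟩⟩, ⟨_, h4⟩, ⟨_, h5⟩⟩
      intro h6
      exact hne (by rw [← h4, ← h5]; exact congrArg π h6)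
    · refine ⟨t e, s e, h5, h4, ⟨?_, e, he, Or.inr ⟨rfl, rfl⟩⟩, ⟨_, h5⟩, ⟨_, h4⟩⟩
      intro h6
      exact hne (by rw [← h4, ← h5]; exact congrArg π h6)
  have hall : ∀ i : ℕ, ∀ hi : i < K, ∀ u w, π u = q ⟨0, by omega⟩ → π w = q ⟨i, hi⟩ →
      Γ.Reachable u w := by
    intro i
    induction i with
    | zero =>
      intro hi u w hu hw
      exact hreach _ (fun x hx => ⟨_, hx.trans hu⟩) u w (hπ u w (hu.trans hw.symm))
    | succ i ih =>
      intro hi u w hu hw
      obtain ⟨a, b, ha, hb, hab⟩ := hedge i hi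
      refine ((ih (by omega) u a hu ha).trans hab.reachable).trans ?_
      exact hreach _ (fun x hx => ⟨_, hx.trans hb⟩) b w (hπ b w (hb.trans hw.symm))
  have hlayer : ∀ u w (p : Γ.Walk u w) (i j : Fin K), π u = q i → π w = q j →
      j.val ≤ i.val + p.length := by
    intro u w p
    induction p with
    | nil =>
      intro i j hi hj
      have : i = j := hq (hi.symm.trans hj)
      subst this
      simp
    | cons hadj p ih =>
      rename_i a b c
      intro i j hi hj
      obtain ⟨h1, h2, k, hk⟩ := hadj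
      have h3 := ih k j hk hj
      have h4 : k.val ≤ i.val + 1 := by
        rcases lt_trichotomy i k with h5 | h5 | h5
        · have h6 : Nb (fun e => π (s e)) (fun e => π (t e)) S (q i) (q k) := by
            obtain ⟨hne, e, he, hE⟩ := h1
            refine ⟨fun h => absurd (hq h) (ne_of_gt h5), e, he, ?_⟩
            rcases hE with ⟨h4, h5⟩ | ⟨h4, h5⟩
            · exact Or.inl ⟨by rw [← hi]; exact congrArg π h4, by rw [← hk]; exact congrArg π h5⟩
            · exact Or.inr ⟨by rw [← hk]; exact congrArg π h4, by rw [← hi]; exact congrArg π h5⟩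
          have := (hq' i k h5).1 h6
          omega
        · subst h5; omega
        · have : k.val < i.val := h5
          omega
      rw [SimpleGraph.Walk.length_cons]
      omega
  obtain ⟨x0, _, hx0, _, hadj0⟩ := hedge 0 (by omega)
  obtain ⟨_, x1, _, hx1, _⟩ := hedge (K - 2) (by omega)
  have hx1' : π x1 = q ⟨K - 1, by omega⟩ := by
    rw [hx1]
    congr 1
    apply Fin.ext
    show K - 2 + 1 = K - 1
    omega
  obtain ⟨w, hw⟩ := (hall (K - 1) (by omega) x0 x1 hx0 hx1').exists_walk_length_eq_dist
  have hlen := hlayer x0 x1 w ⟨0, by omega⟩ ⟨K - 1, by omega⟩ hx0 hx1'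
  have hlen' : K - 1 ≤ w.length := by simpa using hlen
  have hg := geo w hw
  have hUw : ∀ i, i ≤ w.length → U (w.getVert i) := by
    intro i hi
    rcases Nat.eq_zero_or_pos i with rfl | hpos
    · rw [SimpleGraph.Walk.getVert_zero]; exact ⟨_, hx0⟩
    · obtain ⟨j, rfl⟩ : ∃ j, i = j + 1 := ⟨i - 1, by omega⟩
      exact (w.adj_getVert_succ (i := j) (by omega)).2.2
  refine ⟨fun i => w.getVert i.val, fun i => hUw _ (by omega), ?_, ?_⟩
  · intro i j hij
    have h1 := hg i.val (by omega)
    have h2 := hg j.val (by omega)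
    have h3 : w.getVert i.val = w.getVert j.val := hij
    rw [h3, h2] at h1
    exact Fin.ext h1.symm
  · intro i j hij
    have hi : i.val ≤ w.length := by omega
    have hj : j.val ≤ w.length := by omega
    have hij' : i.val < j.val := hij
    constructor
    · intro h1
      have h2 : Γ.Adj (w.getVert i.val) (w.getVert j.val) := ⟨h1, hUw _ hi, hUw _ hj⟩
      have h3 := SimpleGraph.dist_le ((w.take i.val).concat h2)
      rw [SimpleGraph.Walk.length_concat, SimpleGraph.Walk.take_length, hg _ hj] at h3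
      omega
    · intro h1
      have h2 := (w.adj_getVert_succ (i := i.val) (by omega)).1
      have h3 : w.getVert j.val = w.getVert (i.val + 1) := by rw [h1]
      show Nb s t S (w.getVert i.val) (w.getVert j.val)
      rw [h3]
      exact h2


/-- a component -/
theorem lift_interval {s t : E → V} {S : Finset E} {π : V → V} (hπ : FC s t S π) {a b : ℕ}
    (hab : a < b) (q : ℕ → V) (hne : ∃ x, π x = q a)
    (hq : ∀ i j, a ≤ i → i < j → j < b → q i ≠ q j ∧
      (Nb (fun e => π (s e)) (fun e => π (t e)) S (q i) (q j) ↔ i + 1 = j)) :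
    ∃ p : ℕ → V, (∀ i, a ≤ i → i < b → ∃ k, a ≤ k ∧ k < b ∧ π (p i) = q k) ∧
      ∀ i j, a ≤ i → i < j → j < b → p i ≠ p j ∧ (Nb s t S (p i) (p j) ↔ i + 1 = j) := by
  classical
  rcases Nat.lt_or_ge (a + 1) b with h | h
  · obtain ⟨p, h1, h2, h3⟩ := lift_pathU hπ (K := b - a) (by omega) (fun i => q (a + i.val))
      (by
        intro i j hij
        have hij' : q (a + i.val) = q (a + j.val) := hij
        rcases lt_trichotomy i.val j.val with h4 | h4 | h4
        · exact absurd hij' (hq _ _ (by omega) (by omega) (by omega)).1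
        · exact Fin.ext h4
        · exact absurd hij'.symm (hq _ _ (by omega) (by omega) (by omega)).1)
      (by
        intro i j hij
        have hij' : i.val < j.val := hij
        rw [(hq (a + i.val) (a + j.val) (by omega) (by omega) (by omega)).2]
        omega)
    refine ⟨fun i => if h : i - a < b - a then p ⟨i - a, h⟩ else q 0, ?_, ?_⟩
    · intro i hi hi'
      have h4 : i - a < b - a := by omega
      simp only [h4, dif_pos]
      obtain ⟨j, hj⟩ := h1 ⟨i - a, h4⟩
      exact ⟨a + j.val, by omega, by omega, hj⟩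
    · intro i j hi hij hj
      have h4 : i - a < b - a := by omega
      have h5 : j - a < b - a := by omega
      simp only [h4, h5, dif_pos]
      have h6 : (⟨i - a, h4⟩ : Fin (b - a)) < ⟨j - a, h5⟩ := by
        show i - a < j - a
        omega
      refine ⟨fun h => absurd (h2 h) (ne_of_lt h6), ?_⟩
      rw [h3 _ _ h6]
      show i - a + 1 = j - a ↔ i + 1 = j
      omega
  · have hb : b = a + 1 := by omega
    subst hb
    obtain ⟨x, hx⟩ := hne
    refine ⟨fun _ => x, fun i hi hi' => ⟨a, le_rfl, by omega, hx⟩, fun i j hi hij hj => ?_⟩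
    omega

/-- the first vertex of the component -/
def cstart (c : ℕ → Prop) [DecidablePred c] : ℕ → ℕ
  | 0 => 0
  | i + 1 => if c (i + 1) then cstart c i else i + 1

theorem cstart_le (c : ℕ → Prop) [DecidablePred c] : ∀ i, cstart c i ≤ i
  | 0 => le_rfl
  | i + 1 => by
    unfold cstart
    split
    · exact (cstart_le c i).trans (Nat.le_succ i)
    · exact le_rfl

theorem cstart_mem (c : ℕ → Prop) [DecidablePred c] : ∀ i j, cstart c i < j → j ≤ i → c j
  | 0, j => by
    intro h1 h2
    have h3 : cstart c 0 = 0 := rfl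
    omega
  | i + 1, j => by
    intro h1 h2
    unfold cstart at h1
    split at h1
    · rename_i h3
      rcases Nat.lt_or_ge i j with h4 | h4
      · have : j = i + 1 := by omega
        rw [this]; exact h3
      · exact cstart_mem c i j h1 h4
    · omega

theorem cstart_eq (c : ℕ → Prop) [DecidablePred c] (i : ℕ) :
    ∀ j, i ≤ j → (∀ k, i < k → k ≤ j → c k) → cstart c j = cstart c i := by
  intro j hij
  induction hij with
  | refl => intro _; rfl
  | step h ih =>
    rename_i m
    intro h2
    have h3 : c (m + 1) := h2 _ (Nat.lt_succ_of_le h) le_rfl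
    have h4 : cstart c (m + 1) = cstart c m := by
      rw [cstart, if_pos h3]
    show cstart c (m + 1) = _
    rw [h4]
    exact ih (fun k h5 h6 => h2 k h5 (by omega))

theorem cstart_idem (c : ℕ → Prop) [DecidablePred c] (i : ℕ) :
    cstart c (cstart c i) = cstart c i :=
  (cstart_eq c (cstart c i) i (cstart_le c i) (fun k h1 h2 => cstart_mem c i k h1 h2)).symm

/-- induced linear forests of a contraction can be lifted -/
theorem lift_forest {s t : E → V} {S : Finset E} {π : V → V} (hπ : FC s t S π) {n : ℕ}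
    (c : ℕ → Prop) (q : ℕ → V) (hne : ∀ i, i < n → ∃ x, π x = q i)
    (hq : ∀ i j, i < j → j < n → q i ≠ q j ∧
      (Nb (fun e => π (s e)) (fun e => π (t e)) S (q i) (q j) ↔ i + 1 = j ∧ c j)) :
    ∃ p : ℕ → V, ∀ i j, i < j → j < n → p i ≠ p j ∧
      (Nb s t S (p i) (p j) ↔ i + 1 = j ∧ c j) := by
  classical
  -- the interval of the component with the start `a`
  have hint : ∀ a, a < n → cstart c a = a → ∃ b, a < b ∧ b ≤ n ∧ (∀ k, a < k → k < b → c k) ∧
      (b = n ∨ ¬ c b) := by
    intro a ha _
    have hex : ∃ b, a < b ∧ (b = n ∨ ¬ c b) := ⟨n, ha, Or.inl rfl⟩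
    obtain ⟨h1, h2⟩ := Nat.find_spec hex
    refine ⟨Nat.find hex, h1, ?_, ?_, h2⟩
    · exact Nat.find_min' hex ⟨ha, Or.inl rfl⟩
    · intro k h3 h4
      have h5 := Nat.find_min hex h4
      by_contra h6
      exact h5 ⟨h3, Or.inr h6⟩
  choose! B hB1 hB2 hB3 hB4 using hint
  have hP : ∀ a, a < n → cstart c a = a → ∃ p : ℕ → V,
      (∀ i, a ≤ i → i < B a → ∃ k, a ≤ k ∧ k < B a ∧ π (p i) = q k) ∧
      ∀ i j, a ≤ i → i < j → j < B a → p i ≠ p j ∧ (Nb s t S (p i) (p j) ↔ i + 1 = j) := by
    intro a ha hst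
    refine lift_interval hπ (hB1 a ha hst) q (hne a ha) ?_
    intro i j hi hij hj
    have h1 := hB2 a ha hst
    obtain ⟨h2, h3⟩ := hq i j hij (by omega)
    refine ⟨h2, h3.trans ⟨fun h => h.1, fun h => ⟨h, hB3 a ha hst j (by omega) hj⟩⟩⟩
  have : Nonempty V := ⟨q 0⟩
  choose! P hP1 hP2 using hP
  -- the component of `i` is `[cstart i, B (cstart i))`
  have hi : ∀ i, i < n → cstart c i < n ∧ cstart c (cstart c i) = cstart c i ∧
      i < B (cstart c i) := by
    intro i hi
    have h1 := cstart_le c i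
    have h2 := cstart_idem c i
    refine ⟨by omega, h2, ?_⟩
    by_contra h3
    rcases hB4 (cstart c i) (by omega) h2 with h4 | h4
    · omega
    · exact h4 (cstart_mem c i _ (hB1 _ (by omega) h2) (by omega))
  have hsame : ∀ i k, i < n → cstart c i ≤ k → k < B (cstart c i) →
      cstart c k = cstart c i := by
    intro i k h1 h2 h3
    obtain ⟨h4, h5, h6⟩ := hi i h1
    have h7 := cstart_eq c (cstart c i) k h2 (fun l h8 h9 => hB3 _ h4 h5 l h8 (by omega))
    rw [h7, h5]
  refine ⟨fun i => P (cstart c i) i, ?_⟩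
  intro i j hij hj
  obtain ⟨a1, a2, a3⟩ := hi i (by omega)
  obtain ⟨b1, b2, b3⟩ := hi j hj
  by_cases hs : cstart c i = cstart c j
  · have h1 := hP2 (cstart c i) a1 a2 i j (cstart_le c i) hij (by rw [hs]; exact b3)
    have hcj : c j := cstart_mem c j j (by rw [← hs]; have := cstart_le c i; omega) le_rfl
    show P (cstart c i) i ≠ P (cstart c j) j ∧ (Nb s t S (P (cstart c i) i) (P (cstart c j) j) ↔ _)
    rw [← hs]
    exact ⟨h1.1, h1.2.trans ⟨fun h => ⟨h, hcj⟩, fun h => h.1⟩⟩
  · obtain ⟨k, k1, k2, k3⟩ := hP1 (cstart c i) a1 a2 i (cstart_le c i) a3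
    obtain ⟨l, l1, l2, l3⟩ := hP1 (cstart c j) b1 b2 j (cstart_le c j) b3
    have hk := hsame i k (by omega) k1 k2
    have hl := hsame j l hj l1 l2
    have hkn : k < n := by have := hB2 _ a1 a2; omega
    have hln : l < n := by have := hB2 _ b1 b2; omega
    have hkl : k ≠ l := by
      intro h
      rw [h] at hk
      exact hs (hk.symm.trans hl)
    have hqkl : q k ≠ q l := by
      rcases Nat.lt_or_ge k l with h | h
      · exact (hq k l h hln).1
      · exact fun h' => (hq l k (by omega) hkn).1 h'.symm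
    have hnot : ¬ Nb (fun e => π (s e)) (fun e => π (t e)) S (q k) (q l) := by
      intro h
      have key : ∀ u v, u < v → v < n → cstart c u ≠ cstart c v →
          ¬ Nb (fun e => π (s e)) (fun e => π (t e)) S (q u) (q v) := by
        intro u v huv hv hne' h'
        obtain ⟨h1, h2⟩ := (hq u v huv hv).2.1 h'
        refine hne' (cstart_eq c u v huv.le ?_).symm
        intro w h3 h4
        have : w = v := by omega
        rw [this]; exact h2
      rcases Nat.lt_or_ge k l with h1 | h1
      · exact key k l h1 hln (by rw [hk, hl]; exact hs) h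
      · exact key l k (by omega) hkn (by rw [hk, hl]; exact fun h => hs h.symm) (nb_comm h)
    refine ⟨?_, ?_⟩
    · intro h
      apply hqkl
      rw [← k3, ← l3]
      exact congrArg π h
    · constructor
      · rintro ⟨h1, e, he, hE⟩
        refine absurd ⟨fun h => hqkl h.symm, e, he, ?_⟩ hnot
        rcases hE with ⟨h4, h5⟩ | ⟨h4, h5⟩
        · exact Or.inl ⟨by rw [← k3]; exact congrArg π h4, by rw [← l3]; exact congrArg π h5⟩
        · exact Or.inr ⟨by rw [← l3]; exact congrArg π h4, by rw [← k3]; exact congrArg π h5⟩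
      · rintro ⟨h1, h2⟩
        refine absurd (cstart_eq c i j hij.le ?_).symm hs
        intro w h3 h4
        have : w = j := by omega
        rw [this]; exact h2

end Pool.Agent.V8H13.LF
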