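import Pool.Agent.TH362.TF.Multi
import Pool.Agent.TH362.TF.Contr
import Pool.Agent.TH362.TF.Cyc
import Pool.Agent.V8H13.LF.Hyp
import Pool.Agent.V8H13.LF.All

set_option autoImplicit false

/-!
# Graphs without induced linear forest: the main argument
-/

namespace Pool.Agent.V8H13.LF

open Pool.Agent.R140.PK

theorem two_of {V E : Type} [Finite V] [Finite E] (s t : E → V)
    (hb : ∀ e, ¬ TH362.Multi.Isthmus s t e)
    (hP : ¬ ∃ B : {p : Finset (Fin 5) // p.card = 2} → Set V,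
      (∀ i, TH362.Multi.ConnectedSet s t (B i)) ∧
      (∀ i j, i ≠ j → Disjoint (B i) (B j)) ∧
      ∀ i j, Disjoint i.1 j.1 → ∃ e, (s e ∈ B i ∧ t e ∈ B j) ∨ (s e ∈ B j ∧ t e ∈ B i))
    (cs : List Bool)
    (hno : ∀ {W : Type} [Finite W] {R : W → W → Prop}, HypF R cs → ∀ {a b : W}, R a b → False)
    (hF : ¬ ∃ p : ℕ → V, ∀ i j, i < j → j < cs.length → p i ≠ p j ∧
      ((∃ e, (s e = p i ∧ t e = p j) ∨ (s e = p j ∧ t e = p i)) ↔
        i + 1 = j ∧ cs[j]? = some true)) :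
    ∃ C₁ C₂ : Set E, TH362.Multi.IsCycle s t C₁ ∧ TH362.Multi.IsCycle s t C₂ ∧
      C₁ ∪ C₂ = Set.univ := by
  classical
  have := Fintype.ofFinite V
  have := Fintype.ofFinite E
  have hn := TH362.TF.n1_of s t hb
  by_cases h1 : TH362.TF.NZ s t Finset.univ
  · exact TH362.TF.two_cycles s t h1
  by_cases h2 : TH362.TF.PQ s t Finset.univ
  · exact absurd (minor_of_contracts (TH362.TF.contracts s t hn h2)) hP
  exfalso
  obtain ⟨π, hπ, hM⟩ := exists_Mc s t Finset.univ hn h1 h2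
  have hH := hypF_of_Mc hπ hM cs (by
    rintro ⟨p, hp⟩
    refine hF ⟨p, fun i j hij hj => ?_⟩
    obtain ⟨h3, h4⟩ := hp i j hij hj
    refine ⟨h3, ?_⟩
    rw [← h4]
    exact ⟨fun ⟨e, he⟩ => ⟨fun h => h3 h.symm, e, Finset.mem_univ e, he⟩,
      fun ⟨_, e, _, he⟩ => ⟨e, he⟩⟩) hP
  have h18 := hM.odd18
  obtain ⟨v, hv⟩ : (TH362.TF.odd (fun e => π (s e)) (fun e => π (t e)) Finset.univ).Nonempty :=
    Finset.card_pos.1 (by omega)
  rw [hM.odd_nb v] at hv
  have h3 : 0 < (Finset.univ.filter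
      (R890.FF.Nb (fun e => π (s e)) (fun e => π (t e)) Finset.univ v)).card := by omega
  obtain ⟨z, hz⟩ := Finset.card_pos.1 h3
  exact hno hH (Finset.mem_filter.1 hz).2

end Pool.Agent.V8H13.LF
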