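import Pool.Agent.V8H13.LF.Bits
import Mathlib.Data.Fintype.EquivFin

set_option autoImplicit false
set_option linter.unusedVariables false
set_option linter.unusedSectionVars false

/-!
# Correctness of the checker
-/

namespace Pool.Agent.V8H13.LF

open Pool.Agent.R140.PK (row tb bit cnt extend row_eq row_bit tb_eq bit_bit lor_bit land_bit shl_bit
  cnt_eq Emb)

open Classical in
/-- graphs without circuits of length at most four, without vertices of degree one or two, without
the induced linear forest `cs`, without a Petersen subgraph and with at least 18 vertices of odd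
degree in every component with edges -/
structure HypF {V : Type} (R : V → V → Prop) (cs : List Bool) : Prop where
  symm : ∀ a b, R a b → R b a
  irr : ∀ a, ¬ R a a
  tri : ∀ a b c, R a b → R b c → R c a → False
  four : ∀ a b c d, a ≠ c → b ≠ d → R a b → R b c → R c d → R d a → False
  deg : ∀ a b, R a b → ∀ l : List V, l.length ≤ 2 → ∃ w, R a w ∧ w ∉ l
  forest : ∀ p : ℕ → V, (∀ i, i < cs.length → ∃ y, R (p i) y) →
    ¬ ∀ i j, i < j → j < cs.length →
      p i ≠ p j ∧ (R (p i) (p j) ↔ i + 1 = j ∧ cs[j]? = some true)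
  pet : ∀ p : ℕ → V, (∀ i j, i < j → j < 10 → p i ≠ p j) →
    ¬ (R (p 0) (p 1) ∧ R (p 1) (p 2) ∧ R (p 2) (p 3) ∧ R (p 3) (p 4) ∧ R (p 4) (p 0) ∧
      R (p 0) (p 5) ∧ R (p 1) (p 6) ∧ R (p 2) (p 7) ∧ R (p 3) (p 8) ∧ R (p 4) (p 9) ∧
      R (p 5) (p 7) ∧ R (p 7) (p 9) ∧ R (p 9) (p 6) ∧ R (p 6) (p 8) ∧ R (p 8) (p 5))
  big : ∀ T : List V, T.Nodup → T ≠ [] → (∀ x ∈ T, ∃ y, R x y) → (∀ x ∈ T, ∀ y, R x y → y ∈ T) →
    18 ≤ (T.filter (fun x => decide ((T.filter (fun y => decide (R x y))).length % 2 = 1))).length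

/-- the state does not occur -/
def OK {V : Type} (R : V → V → Prop) (m A : Nat) : Prop := ∀ φ : Nat → V, ¬ Emb R m A φ

/-- no bits outside the matrix -/
def WF (m A : Nat) : Prop := ∀ i j, m ≤ i ∨ m ≤ j → j < 32 → A.testBit (32 * i + j) = false

section
variable {V : Type} {R : V → V → Prop} {cs : List Bool}

theorem emb_extend [Finite V] (hR : HypF R cs) {m A : Nat} {φ : Nat → V} (h : Emb R m A φ)
    (hm : m < 31) {w : V} (hw : ∀ i, i < m → φ i ≠ w) {T : Nat}
    (hT : ∀ i, T.testBit i = true ↔ i < m ∧ R w (φ i)) (hb : ∃ b, R w b) :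
    Emb R (m + 1) (ext A m T) (Function.update φ m w) := by
  have : Fintype V := Fintype.ofFinite V
  have hK : Pool.Agent.R140.PK.Hyp R (Fintype.card V + 1) := by
    refine ⟨hR.symm, hR.irr, hR.tri, hR.four, hR.deg, ?_⟩
    intro p hp _
    have := Fintype.card_le_of_injective p hp
    rw [Fintype.card_fin] at this
    omega
  refine h.extend hK hm hw (fun i hi => ?_) (fun i hi => ?_) hb (spread_bit ?_)
  · rw [hT]; exact ⟨fun h => h.2, fun h => ⟨hi, h⟩⟩
  · rw [← Bool.not_eq_true, hT]; omega
  · refine Nat.lt_pow_two_of_testBit _ fun i hi => ?_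
    rw [← Bool.not_eq_true, hT]
    omega

theorem pat_sound (hR : HypF R cs) {m A : Nat} {φ : Nat → V} (he : Emb R m A φ)
    (hm : m < 31) {w : V} (hw : ∀ i, i < m → φ i ≠ w) (hwn : ∃ b, R w b) {T : Nat}
    (hT : ∀ i, T.testBit i = true ↔ i < m ∧ R w (φ i)) {c : Nat} (hc : okPat A m cs c = true)
    (hP : ∀ i, (c % 4294967296).testBit i = true →
      T.testBit i = ((Nat.shiftRight c 32) % 4294967296).testBit i) : False := by
  have hc' : lf A m ((Nat.shiftRight c 32) % 4294967296) (c % 4294967296) cs
      (Nat.shiftRight c 64) 0 0 = true := hc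
  obtain ⟨-, h1, -, h2⟩ := lf_spec _ _ _ _ _ _ _ _ hc'
  set Q := (Nat.shiftRight c 32) % 4294967296 with hQ
  set P := c % 4294967296 with hPd
  set D := Pool.Agent.R140.PK.dg (Nat.shiftRight c 64) with hD
  set ψ : Nat → V := fun x => if x = m then w else φ x with hψ
  have hPm : ∀ i, i < cs.length → D i ≠ m → P.testBit (D i) = true ∧ D i < m := by
    intro i hi hne
    obtain ⟨a1, -, a3⟩ := h1 i hi
    rw [lor_bit, bit_bit, Bool.or_eq_true, decide_eq_true_eq] at a3
    rcases a3 with a3 | a3
    · exact ⟨a3, by omega⟩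
    · exact absurd a3.symm hne
  refine hR.forest (fun i => ψ (D i)) ?_ ?_
  · intro i hi
    by_cases him : D i = m
    · have e1 : ψ (D i) = w := by simp [hψ, him]
      rw [e1]
      exact hwn
    · have e1 : ψ (D i) = φ (D i) := by simp [hψ, him]
      rw [e1]
      exact he.nbr _ (hPm i hi him).2
  intro i j hij hj
  obtain ⟨h3, h4⟩ := h2 i j hij hj
  have hi : i < cs.length := by omega
  by_cases hjm : D j = m
  · have him : D i ≠ m := fun h => h3 (h.trans hjm.symm)
    obtain ⟨b1, b2⟩ := hPm i hi him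
    have e1 : ψ (D j) = w := by simp [hψ, hjm]
    have e2 : ψ (D i) = φ (D i) := by simp [hψ, him]
    rw [e1, e2]
    refine ⟨hw _ b2, ?_⟩
    rw [← h4]
    have e3 : rowQ A m Q (D j) = Q := by
      unfold rowQ
      rw [hjm, (beq_iff m m).2 rfl]
      rfl
    rw [e3, ← hP _ b1, hT]
    exact ⟨fun h => ⟨b2, hR.symm _ _ h⟩, fun h => hR.symm _ _ h.2⟩
  · obtain ⟨c1, c2⟩ := hPm j hj hjm
    have e1 : ψ (D j) = φ (D j) := by simp [hψ, hjm]
    have e3 : rowQ A m Q (D j) = Nat.lor (row A (D j)) (bif tb Q (D j) then bit m else 0) := by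
      unfold rowQ
      have : Nat.beq (D j) m = false := by
        rw [← Bool.not_eq_true, beq_iff]; exact hjm
      rw [this]
      rfl
    by_cases him : D i = m
    · have e2 : ψ (D i) = w := by simp [hψ, him]
      rw [e1, e2]
      refine ⟨fun h => hw _ c2 h.symm, ?_⟩
      rw [← h4, e3, him, lor_bit]
      have e4 : (row A (D j)).testBit m = false := by
        rw [row_bit]
        have hm32 : m < 32 := by omega
        simp only [hm32, decide_true, Bool.true_and]
        exact he.out _ _ (Or.inr le_rfl) hm32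
      rw [e4, Bool.false_or]
      have e5 : R w (φ (D j)) ↔ Q.testBit (D j) = true := by
        rw [← hP _ c1, hT]
        exact ⟨fun h => ⟨c2, h⟩, fun h => h.2⟩
      rw [e5]
      cases h5 : tb Q (D j)
      · rw [tb_eq] at h5
        rw [h5]
        simp
      · rw [tb_eq] at h5
        rw [h5]
        simp only [cond_true]
        rw [bit_bit]
        simp
    · obtain ⟨b1, b2⟩ := hPm i hi him
      have e2 : ψ (D i) = φ (D i) := by simp [hψ, him]
      rw [e1, e2]
      refine ⟨fun h => h3 (he.inj _ _ b2 c2 h), ?_⟩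
      rw [← h4, e3, lor_bit]
      have e6 : (bif tb Q (D j) then bit m else 0).testBit (D i) = false := by
        cases tb Q (D j)
        · simp
        · simp only [cond_true]
          rw [bit_bit]
          simp [Ne.symm him]
      rw [e6, Bool.or_false, row_bit]
      have h32 : D i < 32 := by omega
      simp only [h32, decide_true, Bool.true_and]
      rw [← he.adj _ _ c2 b2]
      exact ⟨hR.symm _ _, hR.symm _ _⟩

theorem usePat_sound (hR : HypF R cs) {m A : Nat} {φ : Nat → V} (he : Emb R m A φ)
    (hm : m < 31) {w : V} (hw : ∀ i, i < m → φ i ≠ w) (hwn : ∃ b, R w b) {T : Nat}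
    (hT : ∀ i, T.testBit i = true ↔ i < m ∧ R w (φ i)) {c : Nat}
    (hc : c = 0 ∨ okPat A m cs c = true) {U N s : Nat} (h : usePat c U N s ≠ 0)
    (h1 : ∀ i, U.testBit i = false → T.testBit i = N.testBit i) : False := by
  have h' : (bif Nat.beq (Nat.land c U) 0 then
    bif Nat.beq (Nat.land c N) (Nat.shiftRight c 32 % 4294967296) then
      bif Nat.beq c 0 then 0 else Nat.shiftRight s 6
    else 0
  else 0) ≠ 0 := h
  cases h2 : Nat.beq (Nat.land c U) 0
  · rw [h2] at h'; simp at h'
  rw [h2] at h'
  simp only [cond_true] at h'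
  rw [beq_iff] at h2
  cases h3 : Nat.beq (Nat.land c N) (Nat.shiftRight c 32 % 4294967296)
  · rw [h3] at h'; simp at h'
  rw [h3] at h'
  simp only [cond_true] at h'
  rw [beq_iff] at h3
  cases h4 : Nat.beq c 0
  swap
  · rw [h4] at h'; simp at h'
  have h4' : c ≠ 0 := by
    intro h5
    rw [(beq_iff c 0).2 h5] at h4
    exact absurd h4 (by simp)
  refine pat_sound hR he hm hw hwn hT (hc.resolve_left h4') ?_
  intro i hi
  have h5 : c.testBit i = true := by
    have h6 : (4294967296 : Nat) = 2 ^ 32 := by norm_num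
    rw [h6, Nat.testBit_mod_two_pow, Bool.and_eq_true] at hi
    exact hi.2
  have h6 : U.testBit i = false := by
    have h7 := land_bit c U i
    rw [h2, Nat.zero_testBit, h5, Bool.true_and] at h7
    exact h7.symm
  rw [h1 i h6, ← h3, land_bit, h5, Bool.true_and]

theorem leaf_sound [Finite V] (hR : HypF R cs) {m A : Nat} {φ : Nat → V} (he : Emb R m A φ)
    (hm : m < 31) {w : V} (hw : ∀ i, i < m → φ i ≠ w) (hwn : ∃ i, i < m ∧ R w (φ i)) {T : Nat}
    (hT : ∀ i, T.testBit i = true ↔ i < m ∧ R w (φ i)) {tbl : Nat → Nat}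
    (htbl : ∀ k, tbl k = 0 ∨ (OK R (m + 1) (tbl k) ∧ WF (m + 1) (tbl k))) {pats : List Nat} {s : Nat}
    (h : leaf tbl A m pats T s ≠ 0) : False := by
  obtain ⟨i0, hi0, hwi⟩ := hwn
  have he' := emb_extend hR he hm hw hT ⟨_, hwi⟩
  have hbit : (ext A m T).testBit (32 * m + i0) = true := by
    rw [← he'.adj m i0 (by omega) (by omega), Function.update_self,
      Function.update_of_ne (by omega)]
    exact hwi
  unfold leaf at h
  cases h1 : Nat.beq (Nat.mod s 64) 61
  swap
  · rw [h1] at h
    simp only [cond_true] at h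
    cases h2 : Nat.beq (ext A m T) (tbl (Nat.mod (Nat.shiftRight s 6) 32768))
    · rw [h2] at h; simp at h
    rw [beq_iff] at h2
    rcases htbl (Nat.mod (Nat.shiftRight s 6) 32768) with h3 | h3
    · rw [h2, h3, Nat.zero_testBit] at hbit
      exact absurd hbit (by simp)
    · exact h3.1 _ (h2 ▸ he')
  rw [h1] at h
  simp only [cond_false] at h
  clear h1
  cases h1 : Nat.beq (Nat.mod s 64) 63
  swap
  · rw [h1] at h
    simp only [cond_true] at h
    cases h4 : inj (Nat.shiftRight s 21) (Nat.succ m) (Nat.succ m) 0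
    · rw [h4] at h; simp at h
    rw [h4] at h
    simp only [cond_true] at h
    cases h2 : Nat.beq (ext A m T)
        (perm (tbl (Nat.mod (Nat.shiftRight s 6) 32768)) (Nat.shiftRight s 21) (Nat.succ m))
    · rw [h2] at h; simp at h
    rw [beq_iff] at h2
    obtain ⟨h5, h6⟩ := inj_spec _ _ _ _ h4
    set σ := Nat.shiftRight s 21 with hσ
    set B := tbl (Nat.mod (Nat.shiftRight s 6) 32768) with hB
    have hex : ∃ k l, k < m + 1 ∧ (row B k).testBit l = true ∧ 32 * m + i0 =
        32 * dg σ k + dg σ l := by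
      rw [h2] at hbit
      exact (perm_bit _ _ _ _).1 hbit
    rcases htbl (Nat.mod (Nat.shiftRight s 6) 32768) with h3 | ⟨h3, h3'⟩
    · obtain ⟨k, l, -, h8, -⟩ := hex
      rw [row_bit, hB, h3, Nat.zero_testBit] at h8
      simp at h8
    · have hinj : ∀ i j, i < m + 1 → j < m + 1 → dg σ i = dg σ j → i = j := by
        intro i j hi hj hij
        rcases lt_trichotomy i j with h8 | h8 | h8
        · exact absurd hij (h6 i j h8 hj)
        · exact h8
        · exact absurd hij.symm (h6 j i h8 hi)
      refine h3 (fun i => Function.update φ m w (dg σ i)) ⟨?_, ?_, ?_, ?_⟩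
      · intro i j hi hj
        rw [he'.adj _ _ (h5 i hi).1 (h5 j hj).1, h2, perm_bit]
        constructor
        · rintro ⟨k, l, h8, h9, h10⟩
          have a1 := dg_lt σ i
          have a2 := dg_lt σ j
          have a3 := dg_lt σ k
          have a4 := dg_lt σ l
          have h11 : i = k := hinj i k hi h8 (by omega)
          rw [row_bit, Bool.and_eq_true, decide_eq_true_eq] at h9
          have h12 : l < m + 1 := by
            by_contra h12
            rw [h3' k l (Or.inr (by omega)) h9.1] at h9
            exact absurd h9.2 (by simp)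
          have h13 : j = l := hinj j l hj h12 (by omega)
          subst h11 h13
          exact h9.2
        · intro h8
          refine ⟨i, j, hi, ?_, rfl⟩
          rw [row_bit, Bool.and_eq_true, decide_eq_true_eq]
          exact ⟨by omega, h8⟩
      · exact h3'
      · intro i j hi hj hij
        exact hinj i j hi hj (he'.inj _ _ (h5 i hi).1 (h5 j hj).1 hij)
      · intro i hi
        exact he'.nbr _ (h5 i hi).1
  rw [h1] at h
  simp only [cond_false] at h
  clear h1
  cases h1 : Nat.beq (Nat.mod s 64) 60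
  swap
  · rw [h1] at h
    simp only [cond_true] at h
    cases h4 : inj (Nat.shiftRight s 6) (Nat.succ m) 10 0
    · rw [h4] at h; simp at h
    rw [h4] at h
    simp only [cond_true] at h
    cases h2 : pet (ext A m T) (Nat.shiftRight s 6)
    · rw [h2] at h; simp at h
    obtain ⟨h5, h6⟩ := inj_spec _ _ _ _ h4
    set σ := Nat.shiftRight s 6 with hσ
    have key : ∀ i j, i < 10 → j < 10 → tb (row (ext A m T) (dg σ i)) (dg σ j) = true →
        R (Function.update φ m w (dg σ i)) (Function.update φ m w (dg σ j)) := by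
      intro i j hi hj h7
      rw [he'.adj _ _ (h5 i hi).1 (h5 j hj).1]
      rw [tb_eq, row_bit, Bool.and_eq_true] at h7
      exact h7.2
    refine hR.pet (fun i => Function.update φ m w (dg σ i)) ?_ ?_
    · intro i j hij hj h7
      exact h6 i j hij hj (he'.inj _ _ (h5 i (by omega)).1 (h5 j hj).1 h7)
    · unfold pet at h2
      simp only [Bool.cond_false_right, Bool.and_eq_true] at h2
      obtain ⟨a1, a2, a3, a4, a5, a6, a7, a8, a9, a10, a11, a12, a13, a14, a15⟩ := h2
      exact ⟨key _ _ (by omega) (by omega) a1, key _ _ (by omega) (by omega) a2,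
        key _ _ (by omega) (by omega) a3, key _ _ (by omega) (by omega) a4,
        key _ _ (by omega) (by omega) a5, key _ _ (by omega) (by omega) a6,
        key _ _ (by omega) (by omega) a7, key _ _ (by omega) (by omega) a8,
        key _ _ (by omega) (by omega) a9, key _ _ (by omega) (by omega) a10,
        key _ _ (by omega) (by omega) a11, key _ _ (by omega) (by omega) a12,
        key _ _ (by omega) (by omega) a13, key _ _ (by omega) (by omega) a14,
        key _ _ (by omega) (by omega) a15⟩
  rw [h1] at h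
  simp only [cond_false] at h
  clear h1
  cases h1 : Nat.beq (Nat.mod s 64) 62
  · rw [h1] at h; simp at h
  rw [h1] at h
  simp only [cond_true] at h
  cases h2 : Nat.beq T 0
  · rw [h2] at h; simp at h
  rw [beq_iff] at h2
  have h3 : T.testBit i0 = true := (hT i0).2 ⟨hi0, hwi⟩
  rw [h2, Nat.zero_testBit] at h3
  exact absurd h3 (by simp)

end

end Pool.Agent.V8H13.LF
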